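import Pool.Agent.J4H68.CC.Fam

/-!
# Bounded formulas for the family of permutations, and the reduction
-/

set_option autoImplicit false

namespace Pool.Agent.J4H68.CC

open Function Pool.Agent.J4H63.GZ

section

variable {ι : Type}

theorem PFup {f : (ι → ℕ) → ℕ} (hf : PF f) : PF (fun w : Option ι → ℕ => f (fun j => w (some j))) :=
  hf.comp (r := fun i (w : Option ι → ℕ) => w (some i)) fun i => PF.proj (some i)

/-- the graph of `eps` -/
theorem bd_eps {a b : (ι → ℕ) → ℕ} (ha : PF a) (hb : PF b) : Bd (fun v => eps (a v) = b v) := by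
  refine (Bd.ex_le (b := a) (P := fun v k => (a v = 2 * k ∧ b v = 2 * k + 1) ∨
    (a v = 2 * k + 1 ∧ b v = 2 * k)) ha ?_).congr fun v => ?_
  · have ha' := PFup ha
    have hb' := PFup hb
    have h2 : PF (fun w : Option ι → ℕ => 2 * w none) := (PF.const 2).mul (PF.proj none)
    exact Bd.or (Bd.and (Bd.eqf ha' h2) (Bd.eqf hb' (h2.add (PF.const 1))))
      (Bd.and (Bd.eqf ha' (h2.add (PF.const 1))) (Bd.eqf hb' h2))
  · unfold eps
    constructor
    · intro h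
      exact ⟨a v / 2, by omega, by omega⟩
    · rintro ⟨k, _, h⟩
      omega

theorem bd_graph {K : ℕ} {τ : (Fin (K + 1) → ℕ) → ℕ → ℕ}
    (hτ : Delta0 (K + 3) (fun v => τ (fun i => v i.succ.succ) (v 0) = v 1))
    {p : Fin (K + 1) → (ι → ℕ) → ℕ} (hp : ∀ i, PF (p i)) {a b : (ι → ℕ) → ℕ} (ha : PF a)
    (hb : PF b) : Bd (fun v => τ (fun i => p i v) (a v) = b v) :=
  ((Bd.of_delta0 hτ).subst (f := fun i v => (Matrix.vecCons (a v) (Matrix.vecCons (b v)
    (fun i => p i v)) : Fin (K + 3) → ℕ) i) (PF.cons ha (PF.cons hb hp))).congr fun v => Iff.rfl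

theorem bd_base {K : ℕ} {τ : (Fin (K + 1) → ℕ) → ℕ → ℕ} (hτ : InvFamily K τ)
    {p : Fin (K + 1) → (ι → ℕ) → ℕ} (hp : ∀ i, PF (p i)) {a b : (ι → ℕ) → ℕ} (ha : PF a)
    (hb : PF b) : Bd (fun v => base (τ (fun i => p i v)) (p 0 v) (a v) = b v) := by
  have h1 : Bd (fun v => a v < 2 * p 0 v) := Bd.ltf ha ((PF.const 2).mul (hp 0))
  have h2 : Bd (fun v => ∃ c ≤ a v + p 0 v, τ (fun i => p i v) (a v) = c ∧ eps c = b v) :=
    Bd.ex_le (P := fun v c => τ (fun i => p i v) (a v) = c ∧ eps c = b v) (ha.add (hp 0))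
      (Bd.and (bd_graph hτ.graph (p := fun i w => p i (fun j => w (some j)))
        (fun i => PFup (hp i)) (PFup ha) (PF.proj none)) (bd_eps (PF.proj none) (PFup hb)))
  refine (Bd.or (Bd.and h1 h2) (Bd.and (Bd.not h1) (Bd.eqf ha hb))).congr fun v => ?_
  unfold base
  by_cases h0 : a v < 2 * p 0 v
  · rw [if_pos h0]
    constructor
    · intro h
      refine Or.inl ⟨h0, τ (fun i => p i v) (a v), ?_, rfl, h⟩
      have := hτ.lt (fun i => p i v) (N := a v + p 0 v + 1) (x := a v)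
        (by change p 0 v ≤ _; omega) (by omega)
      omega
    · rintro (⟨_, c, _, h1, h2⟩ | ⟨h1, _⟩)
      · rw [h1]
        exact h2
      · exact absurd h0 h1
  · rw [if_neg h0]
    constructor
    · intro h
      exact Or.inr ⟨h0, h⟩
    · rintro (⟨h1, _⟩ | ⟨_, h1⟩)
      · exact absurd h1 h0
      · exact h1

theorem star_family {K : ℕ} {τ : (Fin (K + 1) → ℕ) → ℕ → ℕ} (hτ : InvFamily K τ) :
    PermFamily (K + 4) (star τ) := by
  refine ⟨fun q => (star_good hτ q).bij, fun q x hx => (star_good hτ q).fix x hx, ?_⟩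
  rw [Bd.delta0_iff]
  have hp : ∀ i : Fin (K + 1), PF (fun v : Fin (K + 7) → ℕ =>
      v i.succ.succ.succ.succ.succ.succ) := fun i => PF.proj _
  have hb : ∀ a : Fin (K + 7), Bd (fun v : Fin (K + 7) → ℕ =>
      base (τ (fun i => v i.succ.succ.succ.succ.succ.succ)) (v 6) (v a) = v 1) :=
    fun a => bd_base hτ hp (PF.proj a) (PF.proj 1)
  have hc : Bd (fun v : Fin (K + 7) → ℕ => 2 * v 6 ≤ v 2 ∧ v 4 < 2 * v 6 ∧ v 5 < 2 * v 6) :=
    Bd.and (Bd.lef ((PF.const 2).mul (PF.proj 6)) (PF.proj 2))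
      (Bd.and (Bd.ltf (PF.proj 4) ((PF.const 2).mul (PF.proj 6)))
        (Bd.ltf (PF.proj 5) ((PF.const 2).mul (PF.proj 6))))
  have e4 : Bd (fun v : Fin (K + 7) → ℕ => v 0 = v 4) := Bd.eqf (PF.proj 0) (PF.proj 4)
  have e5 : Bd (fun v : Fin (K + 7) → ℕ => v 0 = v 5) := Bd.eqf (PF.proj 0) (PF.proj 5)
  have e3 : Bd (fun v : Fin (K + 7) → ℕ => v 3 = 0) := Bd.eqf (PF.proj 3) (PF.const 0)
  refine (Bd.or (Bd.and hc (Bd.or (Bd.and e3 (hb 0)) (Bd.and (Bd.not e3)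
    (Bd.or (Bd.and e4 (hb 5)) (Bd.and (Bd.not e4) (Bd.or (Bd.and e5 (hb 4))
      (Bd.and (Bd.not e5) (hb 0)))))))) (Bd.and (Bd.not hc)
        (Bd.eqf (PF.proj 0) (PF.proj 1)))).congr fun v => ?_
  have key : star τ (fun i => v i.succ.succ) (v 0) =
      if 2 * v 6 ≤ v 2 ∧ v 4 < 2 * v 6 ∧ v 5 < 2 * v 6 then
        if v 3 = 0 then base (τ (fun i => v i.succ.succ.succ.succ.succ.succ)) (v 6) (v 0)
        else if v 0 = v 4 then base (τ (fun i => v i.succ.succ.succ.succ.succ.succ)) (v 6) (v 5)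
        else if v 0 = v 5 then base (τ (fun i => v i.succ.succ.succ.succ.succ.succ)) (v 6) (v 4)
        else base (τ (fun i => v i.succ.succ.succ.succ.succ.succ)) (v 6) (v 0)
      else v 0 := rfl
  rw [key]
  split_ifs with h1 h2 h3 h4 <;> tauto

/-- predicates with parameters -/
def DBd {n : ℕ} (D : (ι → ℕ) → (Fin n → ℕ) → Prop) : Prop :=
  Bd (fun w : ι ⊕ Fin n → ℕ => D (fun i => w (Sum.inl i)) (fun j => w (Sum.inr j)))

theorem DBd.app {n : ℕ} {D : (ι → ℕ) → (Fin n → ℕ) → Prop} (hD : DBd D)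
    {t : Fin n → (ι → ℕ) → ℕ} (ht : ∀ i, PF (t i)) : Bd (fun v : ι → ℕ => D v (fun i => t i v)) := by
  refine (hD.subst (f := fun s v => Sum.elim (fun i => v i) (fun j => t j v) s) ?_).congr
    fun v => Iff.rfl
  rintro (i | i)
  · exact PF.proj i
  · exact ht i

theorem DBd.up {n : ℕ} {D : (ι → ℕ) → (Fin n → ℕ) → Prop} (hD : DBd D) :
    DBd (fun w : Option ι → ℕ => D (fun i => w (some i))) := by
  refine (hD.subst (f := fun s (w : Option ι ⊕ Fin n → ℕ) =>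
    Sum.elim (fun i => w (Sum.inl (some i))) (fun j => w (Sum.inr j)) s) ?_).congr fun v => Iff.rfl
  rintro (i | i)
  · exact PF.proj _
  · exact PF.proj _

theorem bd_SOf {K : ℕ} (m : ℕ) {D : (ι → ℕ) → (Fin (K + 5) → ℕ) → Prop} (hD : DBd D)
    {p : Fin (K + 1) → (ι → ℕ) → ℕ} (hp : ∀ i, PF (p i)) {x y : (ι → ℕ) → ℕ} (hx : PF x)
    (hy : PF y) : Bd (fun v => SOf m (D v) (fun i => p i v) (x v) (y v)) := by
  have hp' : ∀ i, PF (fun w : Option ι → ℕ => p i (fun j => w (some j))) := fun i => PFup (hp i)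
  have hc : PF (fun w : Option ι → ℕ => 2 * p 0 (fun j => w (some j)) + w none) :=
    ((PF.const 2).mul (hp' 0)).add (PF.proj none)
  have h1 := hD.up.app (PF.cons hc (PF.cons (PF.const 0) (PF.cons (PFup hx)
    (PF.cons (PFup hy) hp'))))
  have h2 := hD.up.app (PF.cons (hc.add (PF.const (m - 1))) (PF.cons (PF.const 1)
    (PF.cons (PFup hx) (PF.cons (PFup hy) hp'))))
  exact Bd.ex_le (b := fun _ => m) (P := fun v r =>
    D v (qv (2 * p 0 v + r) 0 (x v) (y v) (fun i => p i v)) ∧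
      D v (qv (2 * p 0 v + r + (m - 1)) 1 (x v) (y v) (fun i => p i v))) (PF.const m)
    (Bd.and h1 h2)

theorem bd_linkF {K : ℕ} {τ : (Fin (K + 1) → ℕ) → ℕ → ℕ} (hτ : InvFamily K τ) (m : ℕ)
    {D : (ι → ℕ) → (Fin (K + 5) → ℕ) → Prop} (hD : DBd D)
    {u : Fin (K + 3) → (ι → ℕ) → ℕ} (hu : ∀ i, PF (u i)) :
    Bd (fun v => linkF τ m (D v) (fun i => u i v)) := by
  have h2 : PF (fun v => 2 * u 2 v) := (PF.const 2).mul (hu 2)
  have hp : ∀ i : Fin (K + 1), PF (u i.succ.succ) := fun i => hu _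
  have hA : Bd (fun v => 2 * u 2 v ≤ u 0 v ∧ ∃ k ≤ u 0 v,
      ((u 0 v = 2 * k ∨ u 0 v = 2 * k + 1) ∧ (u 1 v = 2 * k ∨ u 1 v = 2 * k + 1))) := by
    refine Bd.and (Bd.lef h2 (hu 0)) (Bd.ex_le (P := fun v k =>
      ((u 0 v = 2 * k ∨ u 0 v = 2 * k + 1) ∧ (u 1 v = 2 * k ∨ u 1 v = 2 * k + 1))) (hu 0) ?_)
    have hk : PF (fun w : Option ι → ℕ => 2 * w none) := (PF.const 2).mul (PF.proj none)
    exact Bd.and (Bd.or (Bd.eqf (PFup (hu 0)) hk) (Bd.eqf (PFup (hu 0)) (hk.add (PF.const 1))))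
      (Bd.or (Bd.eqf (PFup (hu 1)) hk) (Bd.eqf (PFup (hu 1)) (hk.add (PF.const 1))))
  have hB : Bd (fun v => u 0 v < 2 * u 2 v ∧ u 1 v < 2 * u 2 v) :=
    Bd.and (Bd.ltf (hu 0) h2) (Bd.ltf (hu 1) h2)
  have hC : Bd (fun v => u 0 v = u 1 v ∨ SOf m (D v) (fun i => u i.succ.succ v) (u 0 v) (u 1 v)) :=
    Bd.or (Bd.eqf (hu 0) (hu 1)) (bd_SOf m hD hp (hu 0) (hu 1))
  have hE : Bd (fun v => ∃ x' ≤ u 0 v + u 2 v, (τ (fun i => u i.succ.succ v) (u 0 v) = x' ∧
      (x' = u 1 v ∨ SOf m (D v) (fun i => u i.succ.succ v) x' (u 1 v)))) := by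
    refine Bd.ex_le (P := fun v x' => (τ (fun i => u i.succ.succ v) (u 0 v) = x' ∧
      (x' = u 1 v ∨ SOf m (D v) (fun i => u i.succ.succ v) x' (u 1 v))))
      ((hu 0).add (hu 2)) ?_
    refine Bd.and ?_ (Bd.or ?_ ?_)
    · exact bd_graph hτ.graph (p := fun i w => u i.succ.succ (fun j => w (some j)))
        (fun i => PFup (hp i)) (PFup (hu 0)) (PF.proj none)
    · exact Bd.eqf (PF.proj none) (PFup (hu 1))
    · exact bd_SOf m hD.up (p := fun i w => u i.succ.succ (fun j => w (some j)))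
        (fun i => PFup (hp i)) (PF.proj none) (PFup (hu 1))
  exact Bd.or hA (Bd.and hB (Bd.or hC hE))

end

theorem adv_of_cycles {K : ℕ} {τ : (Fin (K + 1) → ℕ) → ℕ → ℕ} (hτ : InvFamily K τ) {m : ℕ}
    (hm : 3 ≤ m) (h : Adv (fun q : Fin (K + 5) → ℕ => m ∣ numCycles (star τ q) (q 0))) :
    Adv (LinkRel τ) := by
  obtain ⟨A, hA, Φ, c, hΦ, h⟩ := h
  refine ⟨A, hA, fun u => linkF τ m (fun q => Φ (Sum.elim (fun i => u (Sum.inl i)) q))
    (fun i => u (Sum.inr i)), (m + 3) * c, ?_, fun z => ?_⟩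
  · refine bd_linkF hτ m (D := fun u q => Φ (Sum.elim (fun i => u (Sum.inl i)) q)) ?_
      (u := fun i u => u (Sum.inr i)) fun i => PF.proj _
    refine (hΦ.subst (f := fun s (w : (A ⊕ Fin (K + 3)) ⊕ Fin (K + 5) → ℕ) =>
      Sum.elim (fun i => w (Sum.inl (Sum.inl i))) (fun j => w (Sum.inr j)) s) ?_).congr
      fun v => Iff.rfl
    rintro (i | i)
    · exact PF.proj _
    · exact PF.proj _
  · obtain ⟨α, hα, hα'⟩ := h (2 * z + 2 * m)
    refine ⟨α, fun i => (hα i).trans ?_, fun v hv => ?_⟩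
    · rw [pow_mul]
      refine Nat.pow_le_pow_left ?_ c
      have h1 : m + 1 ≤ 2 ^ m := Nat.lt_two_pow_self
      have h2 : 2 ^ m ≤ (z + 2) ^ m := Nat.pow_le_pow_left (by omega) m
      have h3 : (z + 2) ^ (m + 3) = (z + 2) ^ m * ((z + 2) * (z + 2) * (z + 2)) := by ring
      have h4 : (m + 1) * ((z + 2) * (z + 2) * (z + 2)) ≤ (z + 2) ^ (m + 3) := by
        rw [h3]
        exact Nat.mul_le_mul_right _ (h1.trans h2)
      have h5 : 4 * (z + 2) ≤ (z + 2) * (z + 2) * (z + 2) := by nlinarith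
      have h6 : (m + 1) * (4 * (z + 2)) ≤ (m + 1) * ((z + 2) * (z + 2) * (z + 2)) :=
        Nat.mul_le_mul_left _ h5
      nlinarith
    · refine linkF_iff hτ hm v (D := fun q => Φ (Sum.elim α q)) fun B s x y hB hs hx hy => ?_
      have h0 := hv 2
      refine (hα' (qv B s x y (fun i => v i.succ.succ)) ?_).symm
      intro i
      refine Fin.cases ?_ (fun i => Fin.cases ?_ (fun i => Fin.cases ?_ (fun i =>
        Fin.cases ?_ (fun i => ?_) i) i) i) i
      · change B ≤ _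
        omega
      · change s ≤ _
        omega
      · change x ≤ _
        omega
      · change y ≤ _
        omega
      · exact (hv _).trans (by omega)

theorem adv_perm {e m : ℕ} (he : 1 ≤ e)
    (hnear : ∀ (K : ℕ) (π : (Fin (K + 1) → ℕ) → ℕ → ℕ), PermFamily K π →
      NearDelta0 e (K + 1) (fun p => m ∣ numCycles (π p) (p 0))) {K : ℕ}
    {π : (Fin (K + 1) → ℕ) → ℕ → ℕ} (hπ : PermFamily K π) :
    Adv (fun p : Fin (K + 1) → ℕ => m ∣ numCycles (π p) (p 0)) := by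
  refine adv_of_near he ?_
  set C := (K + 1) * (e - 1) + 1
  have hle : K + 1 ≤ K + C + 1 := by omega
  let π' : (Fin (K + C + 1) → ℕ) → ℕ → ℕ := fun p => π (fun i => p (Fin.castLE hle i))
  have hπ' : PermFamily (K + C) π' := by
    refine ⟨fun p => hπ.bij _, fun p x hx => hπ.fix _ x hx, ?_⟩
    rw [Bd.delta0_iff]
    have h3 : K + 3 ≤ K + C + 3 := by omega
    refine ((Bd.of_delta0 hπ.graph).subst
      (f := fun i (v : Fin (K + C + 3) → ℕ) => v (Fin.castLE h3 i)) fun i => PF.proj _).congr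
      fun v => ?_
    exact Iff.rfl
  have e1 : K + C + 1 = K + 1 + C := by omega
  have h := near_cast e1 (hnear _ _ hπ')
  have h0 : Fin.cast e1 (0 : Fin (K + C + 1)) = Fin.castAdd C (0 : Fin (K + 1)) := by
    ext
    simp
  have h2 : ∀ i : Fin (K + 1), Fin.cast e1 (Fin.castLE hle i) = Fin.castAdd C i := by
    intro i
    ext
    simp
  convert h using 1
  funext u
  simp only [π', h0, h2]

theorem nice_of_advlink (H : ∀ (K : ℕ) (τ : (Fin (K + 1) → ℕ) → ℕ → ℕ), InvFamily K τ →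
    Adv (LinkRel τ)) {n : ℕ} {f : (Fin n → ℕ) → ℕ} (hf : E2 n f) : Nice f := by
  induction hf with
  | zero => exact Nice.of_pf (PF.const 0)
  | succ => exact Nice.of_pf ((PF.proj 0).add (PF.const 1))
  | proj i => exact Nice.of_pf (PF.proj i)
  | mul => exact Nice.of_pf (((PF.proj 0).add (PF.const 1)).mul ((PF.proj 1).add (PF.const 1)))
  | comp _ _ ih1 ih2 => exact Nice.comp ih1 ih2
  | @lrec n g h b F hg hh hb hFb h0 h1 ihg ihh ihb =>
    exact nice_rec_of_adv (adv_cutRel ihg ihh (H _ _ (fam_inv ihh))) ihg ihh ihb hFb h0 h1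

theorem delta0_of_advlink (H : ∀ (K : ℕ) (τ : (Fin (K + 1) → ℕ) → ℕ → ℕ), InvFamily K τ →
    Adv (LinkRel τ)) {k : ℕ} {R : (Fin k → ℕ) → Prop} (hR : E2star k R) : Delta0 k R := by
  obtain ⟨f, hf, hf'⟩ := hR
  have h := (nice_of_advlink H hf).graph (ι := Fin k) (a := fun i v => v i)
    (fun i => PF.proj i) (y := fun _ => 0) (PF.const 0)
  refine Bd.delta0_iff.2 (h.congr fun v => ⟨fun hR => (hf' v).1 hR, fun h0 => ?_⟩)
  by_contra hR
  have h1 := (hf' v).2 hR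
  have h2 : f v = 0 := h0
  omega

theorem delta0_of_cycles {e m : ℕ} (he : 1 ≤ e) (hm : 3 ≤ m)
    (hnear : ∀ (K : ℕ) (π : (Fin (K + 1) → ℕ) → ℕ → ℕ), PermFamily K π →
      NearDelta0 e (K + 1) (fun p => m ∣ numCycles (π p) (p 0))) {k : ℕ}
    {R : (Fin k → ℕ) → Prop} (hR : E2star k R) : Delta0 k R :=
  delta0_of_advlink (fun _ _ hτ => adv_of_cycles hτ hm (adv_perm he hnear (star_family hτ))) hR

end Pool.Agent.J4H68.CC
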