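import Pool.Agent.J4H68.CC.Two

/-!
# The graph of two involutions made from a permutation, and reversals
-/

set_option autoImplicit false

namespace Pool.Agent.J4H68.CC

open Function Pool.Agent.J4H63.GZ

/-- the two elements of a pair are linked -/
theorem linked_pair (T : ℕ → ℕ) {a b : ℕ} (h : b / 2 = a / 2) : Linked T a b :=
  Relation.ReflTransGen.single (Or.inr h)

theorem linked_iff_of {T f' : ℕ → ℕ} (hA : ∀ b, Orb f' (b / 2) (T b / 2))
    (hB : ∀ a, Linked T (2 * a) (2 * f' a)) (v w : ℕ) :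
    Linked T v w ↔ Orb f' (v / 2) (w / 2) := by
  constructor
  · intro h
    induction h with
    | refl => exact Orb.refl _ _
    | @tail b c _ hbc ih =>
      rcases hbc with rfl | hbc
      · exact ih.trans (hA b)
      · rw [hbc]
        exact ih
  · intro h
    have h1 : Linked T (2 * (v / 2)) (2 * (w / 2)) :=
      Orb.le (E := fun a b => Linked T (2 * a) (2 * b)) (fun s => Relation.ReflTransGen.refl)
        (fun s t u h1 h2 => h1.trans h2) hB h
    exact (linked_pair T (by omega)).trans (h1.trans (linked_pair T (by omega)))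

theorem numComps_of {T f' : ℕ → ℕ} (h : ∀ v w, Linked T v w ↔ Orb f' (v / 2) (w / 2)) (M : ℕ) :
    numComps T (2 * M) = numCycles f' M := by
  rw [numCycles_eq]
  unfold numComps
  have hinj : Injective (fun x : ℕ => 2 * x) := fun a b h => by
    have : 2 * a = 2 * b := h
    omega
  rw [← Set.ncard_image_of_injective {x : ℕ | x < M ∧ Lead f' x} hinj]
  congr 1
  ext x
  simp only [Set.mem_ofPred_eq, Set.mem_image]
  constructor
  · rintro ⟨hx, hl⟩
    have h1 := hl (2 * (x / 2)) (linked_pair T (by omega))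
    refine ⟨x / 2, ⟨by omega, fun t ht => ?_⟩, by omega⟩
    have h2 := hl (2 * t) ((h _ _).2 (by rwa [show 2 * t / 2 = t by omega]))
    omega
  · rintro ⟨a, ⟨ha, hl⟩, rfl⟩
    refine ⟨by omega, fun y hy => ?_⟩
    have h1 := (h _ _).1 hy
    rw [show 2 * a / 2 = a by omega] at h1
    have h2 := hl _ h1
    omega

/-- `2 a + 1` is joined to `2 (f a)` -/
def gr (f g : ℕ → ℕ) (N a : ℕ) : ℕ :=
  if a < 2 * N then (if a % 2 = 1 then 2 * f (a / 2) else 2 * g (a / 2) + 1) else a

/-- a transposition -/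
def tr (u v a : ℕ) : ℕ := if a = u then v else if a = v then u else a

theorem tr_tr (u v a : ℕ) : tr u v (tr u v a) = a := by
  unfold tr
  split_ifs <;> omega

/-- the partners of `2 f x` and `2 y + 1` are exchanged -/
def gx (f g : ℕ → ℕ) (N x y a : ℕ) : ℕ :=
  tr (2 * f x) (2 * y + 1) (gr f g N (tr (2 * f x) (2 * y + 1) a))

section

variable {f g : ℕ → ℕ} {N : ℕ}

theorem gr_odd {u : ℕ} (hu : u < N) : gr f g N (2 * u + 1) = 2 * f u := by
  unfold gr
  rw [if_pos (by omega), if_pos (by omega), show (2 * u + 1) / 2 = u by omega]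

theorem gr_even {u : ℕ} (hu : u < N) : gr f g N (2 * u) = 2 * g u + 1 := by
  unfold gr
  rw [if_pos (by omega), if_neg (by omega), show (2 * u) / 2 = u by omega]

theorem gr_large {a : ℕ} (ha : 2 * N ≤ a) : gr f g N a = a := if_neg (by omega)

theorem g_lt (hf : Good f N) (hg' : ∀ a, f (g a) = a) {a : ℕ} (ha : a < N) : g a < N := by
  by_contra h
  have h1 := hf.fix (g a) (by omega)
  rw [hg'] at h1
  omega

theorem gr_gr (hf : Good f N) (hg : ∀ a, g (f a) = a) (hg' : ∀ a, f (g a) = a) (a : ℕ) :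
    gr f g N (gr f g N a) = a := by
  rcases lt_or_ge a (2 * N) with h | h
  · rcases Nat.even_or_odd' a with ⟨u, rfl | rfl⟩
    · rw [gr_even (by omega), gr_odd (g_lt hf hg' (by omega)), hg']
    · rw [gr_odd (by omega), gr_even (hf.lt (by omega)), hg]
  · rw [gr_large h, gr_large h]

theorem gx_gx (hf : Good f N) (hg : ∀ a, g (f a) = a) (hg' : ∀ a, f (g a) = a) (x y a : ℕ) :
    gx f g N x y (gx f g N x y a) = a := by
  unfold gx
  rw [tr_tr, gr_gr hf hg hg', tr_tr]

/-- the graph `gr` -/
theorem linked_gr (hf : Good f N) (hg' : ∀ a, f (g a) = a) (v w : ℕ) :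
    Linked (gr f g N) v w ↔ Orb f (v / 2) (w / 2) := by
  refine linked_iff_of (fun b => ?_) (fun a => ?_) v w
  · rcases lt_or_ge b (2 * N) with h | h
    · rcases Nat.even_or_odd' b with ⟨u, rfl | rfl⟩
      · rw [gr_even (by omega), show 2 * u / 2 = u by omega, show (2 * g u + 1) / 2 = g u by omega]
        have h1 := Orb.step f (g u)
        rw [hg'] at h1
        exact hf.symm h1
      · rw [gr_odd (by omega), show (2 * u + 1) / 2 = u by omega, show 2 * f u / 2 = f u by omega]
        exact Orb.step f u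
    · rw [gr_large h]
      exact Orb.refl _ _
  · rcases lt_or_ge a N with h | h
    · refine (linked_pair _ (b := 2 * a + 1) (by omega)).trans ?_
      have h1 := linked_tau (gr f g N) (2 * a + 1)
      rwa [gr_odd h] at h1
    · rw [hf.fix a h]
      exact Relation.ReflTransGen.refl

section

variable {x y : ℕ}

theorem gx_x (hx : x < N) (hxy : x ≠ y) : gx f g N x y (2 * x + 1) = 2 * y + 1 := by
  have h1 : tr (2 * f x) (2 * y + 1) (2 * x + 1) = 2 * x + 1 := by
    unfold tr
    rw [if_neg (by omega), if_neg (by omega)]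
  unfold gx
  rw [h1, gr_odd hx]
  unfold tr
  rw [if_pos rfl]

theorem gx_y (hf : Good f N) (hg : ∀ a, g (f a) = a) (hx : x < N) (hxy : x ≠ y) :
    gx f g N x y (2 * y + 1) = 2 * x + 1 := by
  have h1 : tr (2 * f x) (2 * y + 1) (2 * y + 1) = 2 * f x := by
    unfold tr
    rw [if_neg (by omega), if_pos rfl]
  unfold gx
  rw [h1, gr_even (hf.lt hx), hg]
  unfold tr
  rw [if_neg (by omega), if_neg (by omega)]

theorem gx_fx (hf : Good f N) (hy : y < N) (hxy : x ≠ y) :
    gx f g N x y (2 * f x) = 2 * f y := by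
  have h1 : tr (2 * f x) (2 * y + 1) (2 * f x) = 2 * y + 1 := by
    unfold tr
    rw [if_pos rfl]
  have h2 : f x ≠ f y := fun h => hxy (hf.inj h)
  unfold gx
  rw [h1, gr_odd hy]
  unfold tr
  rw [if_neg (by omega), if_neg (by omega)]

theorem gx_fy (hf : Good f N) (hg : ∀ a, g (f a) = a) (hy : y < N) (hxy : x ≠ y) :
    gx f g N x y (2 * f y) = 2 * f x := by
  have h2 : f x ≠ f y := fun h => hxy (hf.inj h)
  have h1 : tr (2 * f x) (2 * y + 1) (2 * f y) = 2 * f y := by
    unfold tr
    rw [if_neg (by omega), if_neg (by omega)]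
  unfold gx
  rw [h1, gr_even (hf.lt hy), hg]
  unfold tr
  rw [if_neg (by omega), if_pos rfl]

theorem gx_odd (hf : Good f N) {u : ℕ} (hu : u < N) (hux : u ≠ x) (huy : u ≠ y) :
    gx f g N x y (2 * u + 1) = 2 * f u := by
  have h2 : f u ≠ f x := fun h => hux (hf.inj h)
  have h1 : tr (2 * f x) (2 * y + 1) (2 * u + 1) = 2 * u + 1 := by
    unfold tr
    rw [if_neg (by omega), if_neg (by omega)]
  unfold gx
  rw [h1, gr_odd hu]
  unfold tr
  rw [if_neg (by omega), if_neg (by omega)]

theorem gx_even (hg' : ∀ a, f (g a) = a) {u : ℕ} (hu : u < N) (hux : u ≠ f x) (huy : u ≠ f y) :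
    gx f g N x y (2 * u) = 2 * g u + 1 := by
  have h2 : g u ≠ y := fun h => huy (by rw [← h, hg'])
  have h1 : tr (2 * f x) (2 * y + 1) (2 * u) = 2 * u := by
    unfold tr
    rw [if_neg (by omega), if_neg (by omega)]
  unfold gx
  rw [h1, gr_even hu]
  unfold tr
  rw [if_neg (by omega), if_neg (by omega)]

theorem gx_large (hf : Good f N) (hx : x < N) (hy : y < N) {a : ℕ} (ha : 2 * N ≤ a) :
    gx f g N x y a = a := by
  have h2 := hf.lt hx
  have h1 : tr (2 * f x) (2 * y + 1) a = a := by
    unfold tr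
    rw [if_neg (by omega), if_neg (by omega)]
  unfold gx
  rw [h1, gr_large ha, h1]

/-- the links of `gx` are in the orbits of `f'` -/
theorem stepA (hf : Good f N) (hg : ∀ a, g (f a) = a) (hg' : ∀ a, f (g a) = a) (hx : x < N)
    (hy : y < N) (hxy : x ≠ y) {f' : ℕ → ℕ} (hf' : Good f' N)
    (h1 : ∀ u, u ≠ x → u ≠ y → f' u = f u) (h2 : Orb f' x y) (h3 : Orb f' (f x) (f y)) (b : ℕ) :
    Orb f' (b / 2) (gx f g N x y b / 2) := by
  rcases lt_or_ge b (2 * N) with h | h
  · rcases Nat.even_or_odd' b with ⟨u, rfl | rfl⟩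
    · rw [show 2 * u / 2 = u by omega]
      by_cases hu : u = f x
      · rw [hu, gx_fx hf hy hxy, show 2 * f y / 2 = f y by omega]
        exact h3
      · by_cases hu' : u = f y
        · rw [hu', gx_fy hf hg hy hxy, show 2 * f x / 2 = f x by omega]
          exact hf'.symm h3
        · rw [gx_even hg' (by omega) hu hu', show (2 * g u + 1) / 2 = g u by omega]
          have h4 := Orb.step f' (g u)
          rw [h1 (g u) (fun h => hu (by rw [← h, hg'])) (fun h => hu' (by rw [← h, hg'])),
            hg'] at h4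
          exact hf'.symm h4
    · rw [show (2 * u + 1) / 2 = u by omega]
      by_cases hu : u = x
      · rw [hu, gx_x hx hxy, show (2 * y + 1) / 2 = y by omega]
        exact h2
      · by_cases hu' : u = y
        · rw [hu', gx_y hf hg hx hxy, show (2 * x + 1) / 2 = x by omega]
          exact hf'.symm h2
        · rw [gx_odd hf (by omega) hu hu', show 2 * f u / 2 = f u by omega]
          have h4 := Orb.step f' u
          rw [h1 u hu hu'] at h4
          exact h4
  · rw [gx_large hf hx hy h]
    exact Orb.refl _ _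

theorem arc1 (hf : Good f N) {u : ℕ} (hu : u < N) (hux : u ≠ x) (huy : u ≠ y) :
    Linked (gx f g N x y) (2 * u) (2 * f u) := by
  refine (linked_pair _ (b := 2 * u + 1) (by omega)).trans ?_
  have h1 := linked_tau (gx f g N x y) (2 * u + 1)
  rwa [gx_odd hf hu hux huy] at h1

theorem arc (hf : Good f N) {s : ℕ} (hs : s < N) (j : ℕ)
    (hne : ∀ i < j, f^[i] s ≠ x ∧ f^[i] s ≠ y) :
    Linked (gx f g N x y) (2 * s) (2 * f^[j] s) := by
  induction j with
  | zero => exact Relation.ReflTransGen.refl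
  | succ j ih =>
    rw [iterate_succ_apply']
    have h1 := hne j (by omega)
    exact (ih fun i hi => hne i (by omega)).trans (arc1 hf (hf.iter_lt hs j) h1.1 h1.2)

theorem linked_xy (hx : x < N) (hxy : x ≠ y) : Linked (gx f g N x y) (2 * x) (2 * y) := by
  refine (linked_pair _ (b := 2 * x + 1) (by omega)).trans ?_
  have h1 := linked_tau (gx f g N x y) (2 * x + 1)
  rw [gx_x hx hxy] at h1
  exact h1.trans (linked_pair _ (by omega))

theorem linked_fxy (hf : Good f N) (hy : y < N) (hxy : x ≠ y) :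
    Linked (gx f g N x y) (2 * f x) (2 * f y) := by
  have h1 := linked_tau (gx f g N x y) (2 * f x)
  rwa [gx_fx hf hy hxy] at h1

theorem first_hit {s t : ℕ} (h : Orb f s t) : ∃ j, f^[j] s = t ∧ ∀ i < j, f^[i] s ≠ t := by
  classical
  refine ⟨Nat.find h, Nat.find_spec h, fun i hi => Nat.find_min h hi⟩

/-- both numbers in the same cycle: the cycle is not changed -/
theorem linked_gx_same (hf : Good f N) (hg : ∀ a, g (f a) = a) (hg' : ∀ a, f (g a) = a)
    (hx : x < N) (hy : y < N) (hxy : x ≠ y) (ho : Orb f x y) (v w : ℕ) :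
    Linked (gx f g N x y) v w ↔ Orb f (v / 2) (w / 2) := by
  have hsym : ∀ {a b : ℕ}, Linked (gx f g N x y) a b → Linked (gx f g N x y) b a :=
    fun h => Linked.symm (gx_gx hf hg hg' x y) h
  have hfxy : Orb f (f x) y := (hf.symm (Orb.step f x)).trans ho
  have h0 : Linked (gx f g N x y) (2 * f x) (2 * y) := by
    obtain ⟨j, hj, hj'⟩ := first_hit hfxy
    have h1 := arc (g := g) (x := x) (y := y) hf (hf.lt hx) j fun i hi => ⟨fun h2 => ?_, hj' i hi⟩
    · rwa [hj] at h1
    · have hper : IsPeriodicPt f (i + 1) (f x) := by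
        change f^[i + 1] (f x) = f x
        rw [iterate_succ_apply', h2]
      have h3 := hper.iterate_mod_apply j
      rw [hj] at h3
      exact hj' _ (by
        have := Nat.mod_lt j (show 0 < i + 1 by omega)
        omega) h3
  have hX : Linked (gx f g N x y) (2 * x) (2 * f x) := (linked_xy hx hxy).trans (hsym h0)
  have hY : Linked (gx f g N x y) (2 * y) (2 * f y) := (hsym h0).trans (linked_fxy hf hy hxy)
  refine linked_iff_of (stepA hf hg hg' hx hy hxy hf (fun u _ _ => rfl) ho
    (hfxy.trans (Orb.step f y))) (fun a => ?_) v w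
  by_cases h1 : a = x
  · rw [h1]
    exact hX
  · by_cases h2 : a = y
    · rw [h2]
      exact hY
    · rcases lt_or_ge a N with h | h
      · exact arc1 hf h h1 h2
      · rw [hf.fix a h]
        exact Relation.ReflTransGen.refl

/-- different cycles are joined -/
theorem linked_gx_diff (hf : Good f N) (hg : ∀ a, g (f a) = a) (hg' : ∀ a, f (g a) = a)
    (hx : x < N) (hy : y < N) (hxy : x ≠ y) (ho : ¬ Orb f x y) (v w : ℕ) :
    Linked (gx f g N x y) v w ↔ Orb (sw f x y) (v / 2) (w / 2) := by
  have hsym : ∀ {a b : ℕ}, Linked (gx f g N x y) a b → Linked (gx f g N x y) b a :=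
    fun h => Linked.symm (gx_gx hf hg hg' x y) h
  have hs := hf.sw hx hy
  have hj := sw_join hf ho
  have e1 : Orb (sw f x y) x (f y) := by
    have := Orb.step (sw f x y) x
    rwa [sw_left] at this
  have e2 : Orb (sw f x y) y (f x) := by
    have := Orb.step (sw f x y) y
    rwa [sw_right] at this
  have hfyy : Orb f (f y) y := hf.symm (Orb.step f y)
  have h0 : Linked (gx f g N x y) (2 * f y) (2 * y) := by
    obtain ⟨j, hj, hj'⟩ := first_hit hfyy
    have h1 := arc (g := g) (x := x) (y := y) hf (hf.lt hy) j fun i hi => ⟨fun h2 => ?_, hj' i hi⟩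
    · rwa [hj] at h1
    · exact ho (hf.symm ((Orb.step f y).trans ⟨i, h2⟩))
  have hxy' := linked_xy (f := f) (g := g) hx hxy
  have hX : Linked (gx f g N x y) (2 * x) (2 * f y) := hxy'.trans (hsym h0)
  have hY : Linked (gx f g N x y) (2 * y) (2 * f x) :=
    (hsym h0).trans (hsym (linked_fxy hf hy hxy))
  refine linked_iff_of (stepA hf hg hg' hx hy hxy hs (fun u h1 h2 => sw_of_ne f h1 h2) hj
    ((hs.symm e2).trans ((hs.symm hj).trans e1))) (fun a => ?_) v w
  by_cases h1 : a = x
  · rw [h1, sw_left]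
    exact hX
  · by_cases h2 : a = y
    · rw [h2, sw_right]
      exact hY
    · rw [sw_of_ne f h1 h2]
      rcases lt_or_ge a N with h | h
      · exact arc1 hf h h1 h2
      · rw [hf.fix a h]
        exact Relation.ReflTransGen.refl

theorem numComps_gr (hf : Good f N) (hg' : ∀ a, f (g a) = a) (r : ℕ) :
    numComps (gr f g N) (2 * (N + r)) = numCycles f N + r := by
  rw [numComps_of (linked_gr hf hg'), numCycles_add hf]

theorem numComps_same (hf : Good f N) (hg : ∀ a, g (f a) = a) (hg' : ∀ a, f (g a) = a)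
    (hx : x < N) (hy : y < N) (hxy : x ≠ y) (ho : Orb f x y) (r : ℕ) :
    numComps (gx f g N x y) (2 * (N + r)) = numCycles f N + r := by
  rw [numComps_of (linked_gx_same hf hg hg' hx hy hxy ho), numCycles_add hf]

theorem numComps_diff (hf : Good f N) (hg : ∀ a, g (f a) = a) (hg' : ∀ a, f (g a) = a)
    (hx : x < N) (hy : y < N) (hxy : x ≠ y) (ho : ¬ Orb f x y) (r : ℕ) :
    numComps (gx f g N x y) (2 * (N + r)) + 1 = numCycles f N + r := by
  rw [numComps_of (linked_gx_diff hf hg hg' hx hy hxy ho), numCycles_add (hf.sw hx hy),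
    numCycles_join hf hx hy ho]
  omega

end

end

end Pool.Agent.J4H68.CC
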