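import Pool.Agent.J4H68.CC.Comp

/-!
# The number of components modulo `m ≥ 2` decides whether two numbers are linked
-/

set_option autoImplicit false

namespace Pool.Agent.J4H68.CC

open Function Pool.Agent.J4H63.GZ

/-- the inverse of `base` -/
def binv (τ : ℕ → ℕ) (c b : ℕ) : ℕ := if b < 2 * c then τ (eps b) else b

section

variable {K : ℕ} {τ : (Fin (K + 1) → ℕ) → ℕ → ℕ}

theorem base_binv (hτ : InvFamily K τ) (p : Fin (K + 1) → ℕ) (b : ℕ) :
    base (τ p) (p 0) (binv (τ p) (p 0) b) = b := by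
  rcases lt_or_ge b (2 * p 0) with h | h
  · have h1 : eps b < 2 * p 0 := by
      unfold eps
      omega
    have h2 := hτ.lt p (N := 2 * p 0) (by omega) h1
    unfold binv base
    rw [if_pos h, if_pos h2, hτ.inv, eps_eps]
  · have h1 : binv (τ p) (p 0) b = b := if_neg (by omega)
    rw [h1]
    exact if_neg (by omega)

theorem binv_base (hτ : InvFamily K τ) (p : Fin (K + 1) → ℕ) (a : ℕ) :
    binv (τ p) (p 0) (base (τ p) (p 0) a) = a := by
  rcases lt_or_ge a (2 * p 0) with h | h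
  · have h2 : eps (τ p a) < 2 * p 0 := hτ.rho_lt p (N := p 0) (by omega) a h
    unfold binv base
    rw [if_pos h, if_pos h2, eps_eps, hτ.inv]
  · have h1 : base (τ p) (p 0) a = a := if_neg (by omega)
    rw [h1]
    exact if_neg (by omega)

/-- the family of involutions whose components are counted -/
def cfam (τ : (Fin (K + 1) → ℕ) → ℕ → ℕ) (q : Fin (K + 5) → ℕ) (a : ℕ) : ℕ :=
  if 4 * q 4 ≤ q 0 ∧ q 2 < 2 * q 4 ∧ q 3 < 2 * q 4 then
    if q 1 = 0 then gr (base (τ (fun i => q i.succ.succ.succ.succ)) (q 4))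
      (binv (τ (fun i => q i.succ.succ.succ.succ)) (q 4)) (2 * q 4) a
    else gx (base (τ (fun i => q i.succ.succ.succ.succ)) (q 4))
      (binv (τ (fun i => q i.succ.succ.succ.succ)) (q 4)) (2 * q 4) (q 2) (q 3) a
  else a

theorem cfam_zero (p : Fin (K + 1) → ℕ) {B x y : ℕ} (hB : 4 * p 0 ≤ B) (hx : x < 2 * p 0)
    (hy : y < 2 * p 0) : cfam τ (qv B 0 x y p) =
      gr (base (τ p) (p 0)) (binv (τ p) (p 0)) (2 * p 0) := by
  funext a
  have h1 : 4 * (qv B 0 x y p) 4 ≤ (qv B 0 x y p) 0 ∧ (qv B 0 x y p) 2 < 2 * (qv B 0 x y p) 4 ∧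
      (qv B 0 x y p) 3 < 2 * (qv B 0 x y p) 4 := ⟨hB, hx, hy⟩
  have h2 : (qv B 0 x y p) 1 = 0 := rfl
  unfold cfam
  rw [if_pos h1, if_pos h2]
  rfl

theorem cfam_one (p : Fin (K + 1) → ℕ) {B x y : ℕ} (hB : 4 * p 0 ≤ B) (hx : x < 2 * p 0)
    (hy : y < 2 * p 0) : cfam τ (qv B 1 x y p) =
      gx (base (τ p) (p 0)) (binv (τ p) (p 0)) (2 * p 0) x y := by
  funext a
  have h1 : 4 * (qv B 1 x y p) 4 ≤ (qv B 1 x y p) 0 ∧ (qv B 1 x y p) 2 < 2 * (qv B 1 x y p) 4 ∧
      (qv B 1 x y p) 3 < 2 * (qv B 1 x y p) 4 := ⟨hB, hx, hy⟩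
  have h2 : ¬ (qv B 1 x y p) 1 = 0 := by
    change ¬ (1 = 0)
    omega
  unfold cfam
  rw [if_pos h1, if_neg h2]
  rfl

section

variable {ι : Type}

theorem bd_gr (hτ : InvFamily K τ) {p : Fin (K + 1) → (ι → ℕ) → ℕ} (hp : ∀ i, PF (p i))
    {a b : (ι → ℕ) → ℕ} (ha : PF a) (hb : PF b) :
    Bd (fun v => gr (base (τ (fun i => p i v)) (p 0 v)) (binv (τ (fun i => p i v)) (p 0 v))
      (2 * p 0 v) (a v) = b v) := by
  have h1 : Bd (fun v => a v < 2 * (2 * p 0 v)) :=
    Bd.ltf ha ((PF.const 2).mul ((PF.const 2).mul (hp 0)))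
  have h2 : Bd (fun v => ∃ u ≤ a v, ∃ w ≤ b v,
      (a v = 2 * u + 1 ∧ b v = 2 * w ∧ base (τ (fun i => p i v)) (p 0 v) u = w) ∨
      (a v = 2 * u ∧ b v = 2 * w + 1 ∧ base (τ (fun i => p i v)) (p 0 v) w = u)) := by
    refine Bd.ex_le (P := fun v u => ∃ w ≤ b v,
      (a v = 2 * u + 1 ∧ b v = 2 * w ∧ base (τ (fun i => p i v)) (p 0 v) u = w) ∨
      (a v = 2 * u ∧ b v = 2 * w + 1 ∧ base (τ (fun i => p i v)) (p 0 v) w = u)) ha ?_
    refine Bd.ex_le (b := fun z : Option ι → ℕ => b (fun i => z (some i))) (P := fun z w =>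
      (a (fun i => z (some i)) = 2 * z none + 1 ∧ b (fun i => z (some i)) = 2 * w ∧
        base (τ (fun k => p k (fun i => z (some i)))) (p 0 (fun i => z (some i))) (z none) = w) ∨
      (a (fun i => z (some i)) = 2 * z none ∧ b (fun i => z (some i)) = 2 * w + 1 ∧
        base (τ (fun k => p k (fun i => z (some i)))) (p 0 (fun i => z (some i))) w = z none))
      (PFup hb) ?_
    have ha2 := PFup (PFup ha)
    have hb2 := PFup (PFup hb)
    have hp2 : ∀ i, _ := fun i => PFup (PFup (hp i))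
    have hu : PF (fun z : Option (Option ι) → ℕ => 2 * z (some none)) :=
      (PF.const 2).mul (PF.proj _)
    have hw : PF (fun z : Option (Option ι) → ℕ => 2 * z none) := (PF.const 2).mul (PF.proj _)
    exact Bd.or (Bd.and (Bd.eqf ha2 (hu.add (PF.const 1))) (Bd.and (Bd.eqf hb2 hw)
      (bd_base hτ hp2 (PF.proj (some none)) (PF.proj none))))
      (Bd.and (Bd.eqf ha2 hu) (Bd.and (Bd.eqf hb2 (hw.add (PF.const 1)))
      (bd_base hτ hp2 (PF.proj none) (PF.proj (some none)))))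
  refine (Bd.or (Bd.and h1 h2) (Bd.and (Bd.not h1) (Bd.eqf ha hb))).congr fun v => ?_
  set P : Fin (K + 1) → ℕ := fun i => p i v with hP
  have hP0 : P 0 = p 0 v := rfl
  rw [← hP0]
  have e1 := base_binv hτ P
  have e2 := binv_base hτ P
  rcases lt_or_ge (a v) (2 * (2 * P 0)) with h | h
  · rcases Nat.even_or_odd' (a v) with ⟨u, hu | hu⟩
    · rw [hu, gr_even (by omega)]
      constructor
      · intro h3
        exact Or.inl ⟨by omega, u, by omega, binv (τ P) (P 0) u, by omega,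
          Or.inr ⟨rfl, h3.symm, e1 u⟩⟩
      · rintro (⟨_, u', _, w, _, ⟨h3, _⟩ | ⟨h3, h4, h5⟩⟩ | ⟨h3, _⟩)
        · omega
        · have : u = u' := by omega
          rw [this, ← h5, e2, h4]
        · omega
    · rw [hu, gr_odd (by omega)]
      constructor
      · intro h3
        exact Or.inl ⟨by omega, u, by omega, base (τ P) (P 0) u, by omega,
          Or.inl ⟨rfl, h3.symm, rfl⟩⟩
      · rintro (⟨_, u', _, w, _, ⟨h3, h4, h5⟩ | ⟨h3, _⟩⟩ | ⟨h3, _⟩)
        · have : u = u' := by omega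
          rw [this, h5, h4]
        · omega
        · omega
  · rw [gr_large h]
    constructor
    · intro h3
      exact Or.inr ⟨by omega, h3⟩
    · rintro (⟨h3, _⟩ | ⟨_, h3⟩)
      · omega
      · exact h3

theorem bd_tr {u w a b : (ι → ℕ) → ℕ} (hu : PF u) (hw : PF w) (ha : PF a) (hb : PF b) :
    Bd (fun v => tr (u v) (w v) (a v) = b v) := by
  refine (Bd.or (Bd.and (Bd.eqf ha hu) (Bd.eqf hb hw)) (Bd.and (Bd.not (Bd.eqf ha hu))
    (Bd.or (Bd.and (Bd.eqf ha hw) (Bd.eqf hb hu)) (Bd.and (Bd.not (Bd.eqf ha hw))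
      (Bd.eqf hb ha))))).congr fun v => ?_
  unfold tr
  split_ifs with h1 h2
  · constructor
    · intro h
      exact Or.inl ⟨h1, h.symm⟩
    · rintro (h | h)
      · exact h.2.symm
      · exact absurd h1 h.1
  · constructor
    · intro h
      exact Or.inr ⟨h1, Or.inl ⟨h2, h.symm⟩⟩
    · rintro (h | ⟨_, h | h⟩)
      · exact absurd h.1 h1
      · exact h.2.symm
      · exact absurd h2 h.1
  · constructor
    · intro h
      exact Or.inr ⟨h1, Or.inr ⟨h2, h.symm⟩⟩
    · rintro (h | ⟨_, h | h⟩)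
      · exact absurd h.1 h1
      · exact absurd h.1 h2
      · exact h.2.symm

theorem tr_le (u v a : ℕ) : tr u v a ≤ a + u + v := by
  unfold tr
  split_ifs <;> omega

theorem base_le (hτ : InvFamily K τ) (p : Fin (K + 1) → ℕ) (x : ℕ) :
    base (τ p) (p 0) x ≤ x + 2 * p 0 := by
  rcases lt_or_ge x (2 * p 0) with h | h
  · have h1 : eps (τ p x) < 2 * p 0 := hτ.rho_lt p (N := p 0) (by omega) x h
    unfold base
    rw [if_pos h]
    omega
  · unfold base
    rw [if_neg (by omega)]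
    omega

theorem bd_gx (hτ : InvFamily K τ) {p : Fin (K + 1) → (ι → ℕ) → ℕ} (hp : ∀ i, PF (p i))
    {x y a b : (ι → ℕ) → ℕ} (hx : PF x) (hy : PF y) (ha : PF a) (hb : PF b) :
    Bd (fun v => gx (base (τ (fun i => p i v)) (p 0 v)) (binv (τ (fun i => p i v)) (p 0 v))
      (2 * p 0 v) (x v) (y v) (a v) = b v) := by
  have hxp : PF (fun v => x v + 2 * p 0 v) := hx.add ((PF.const 2).mul (hp 0))
  have hc : PF (fun v => 2 * (x v + 2 * p 0 v) + (2 * y v + 1)) :=
    ((PF.const 2).mul hxp).add (((PF.const 2).mul hy).add (PF.const 1))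
  have h2 : Bd (fun v => ∃ z ≤ x v + 2 * p 0 v,
      base (τ (fun i => p i v)) (p 0 v) (x v) = z ∧
      ∃ a' ≤ a v + (2 * (x v + 2 * p 0 v) + (2 * y v + 1)), tr (2 * z) (2 * y v + 1) (a v) = a' ∧
      ∃ b' ≤ b v + (2 * (x v + 2 * p 0 v) + (2 * y v + 1)), tr (2 * z) (2 * y v + 1) (b v) = b' ∧
      gr (base (τ (fun i => p i v)) (p 0 v)) (binv (τ (fun i => p i v)) (p 0 v))
        (2 * p 0 v) a' = b') := by
    refine Bd.ex_le (P := fun v z => base (τ (fun i => p i v)) (p 0 v) (x v) = z ∧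
      ∃ a' ≤ a v + (2 * (x v + 2 * p 0 v) + (2 * y v + 1)), tr (2 * z) (2 * y v + 1) (a v) = a' ∧
      ∃ b' ≤ b v + (2 * (x v + 2 * p 0 v) + (2 * y v + 1)), tr (2 * z) (2 * y v + 1) (b v) = b' ∧
      gr (base (τ (fun i => p i v)) (p 0 v)) (binv (τ (fun i => p i v)) (p 0 v))
        (2 * p 0 v) a' = b') hxp ?_
    refine Bd.and (bd_base hτ (fun i => PFup (hp i)) (PFup hx) (PF.proj none)) ?_
    refine Bd.ex_le (b := fun t : Option ι → ℕ => a (fun i => t (some i)) +
      (2 * (x (fun i => t (some i)) + 2 * p 0 (fun i => t (some i))) +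
        (2 * y (fun i => t (some i)) + 1)))
      (P := fun t a' => tr (2 * t none) (2 * y (fun i => t (some i)) + 1)
        (a (fun i => t (some i))) = a' ∧
      ∃ b' ≤ b (fun i => t (some i)) + (2 * (x (fun i => t (some i)) +
        2 * p 0 (fun i => t (some i))) + (2 * y (fun i => t (some i)) + 1)),
        tr (2 * t none) (2 * y (fun i => t (some i)) + 1) (b (fun i => t (some i))) = b' ∧
      gr (base (τ (fun k => p k (fun i => t (some i)))) (p 0 (fun i => t (some i))))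
        (binv (τ (fun k => p k (fun i => t (some i)))) (p 0 (fun i => t (some i))))
        (2 * p 0 (fun i => t (some i))) a' = b') ((PFup ha).add (PFup hc)) ?_
    refine Bd.and (bd_tr ((PF.const 2).mul (PF.proj (some none)))
      (((PF.const 2).mul (PFup (PFup hy))).add (PF.const 1)) (PFup (PFup ha)) (PF.proj none)) ?_
    refine Bd.ex_le (b := fun t : Option (Option ι) → ℕ => b (fun i => t (some (some i))) +
      (2 * (x (fun i => t (some (some i))) + 2 * p 0 (fun i => t (some (some i)))) +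
        (2 * y (fun i => t (some (some i))) + 1)))
      (P := fun t b' => tr (2 * t (some none)) (2 * y (fun i => t (some (some i))) + 1)
        (b (fun i => t (some (some i)))) = b' ∧
      gr (base (τ (fun k => p k (fun i => t (some (some i))))) (p 0 (fun i => t (some (some i)))))
        (binv (τ (fun k => p k (fun i => t (some (some i))))) (p 0 (fun i => t (some (some i)))))
        (2 * p 0 (fun i => t (some (some i)))) (t none) = b')
      ((PFup (PFup hb)).add (PFup (PFup hc))) ?_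
    refine Bd.and (bd_tr ((PF.const 2).mul (PF.proj (some (some none))))
      (((PF.const 2).mul (PFup (PFup (PFup hy)))).add (PF.const 1)) (PFup (PFup (PFup hb)))
        (PF.proj none)) ?_
    exact bd_gr hτ (fun i => PFup (PFup (PFup (hp i)))) (PF.proj (some none)) (PF.proj none)
  refine h2.congr fun v => ?_
  have hz := base_le hτ (fun i => p i v) (x v)
  constructor
  · intro h
    refine ⟨_, hz, rfl, _, ?_, rfl, _, ?_, rfl, ?_⟩
    · have := tr_le (2 * base (τ (fun i => p i v)) (p 0 v) (x v)) (2 * y v + 1) (a v)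
      have hz' : base (τ (fun i => p i v)) (p 0 v) (x v) ≤ x v + 2 * p 0 v := hz
      omega
    · have := tr_le (2 * base (τ (fun i => p i v)) (p 0 v) (x v)) (2 * y v + 1) (b v)
      have hz' : base (τ (fun i => p i v)) (p 0 v) (x v) ≤ x v + 2 * p 0 v := hz
      omega
    · rw [← h]
      unfold gx
      rw [tr_tr]
  · rintro ⟨z, _, rfl, a', _, rfl, b', _, rfl, h3⟩
    unfold gx
    rw [h3, tr_tr]

end

theorem cfam_family (hτ : InvFamily K τ) : InvFamily (K + 4) (cfam τ) := by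
  refine ⟨fun q a => ?_, fun q a ha => ?_, ?_⟩
  · have hb := base_good hτ (fun i => q i.succ.succ.succ.succ)
    have h1 := base_binv hτ (fun i => q i.succ.succ.succ.succ)
    have h2 := binv_base hτ (fun i => q i.succ.succ.succ.succ)
    unfold cfam
    by_cases hv : 4 * q 4 ≤ q 0 ∧ q 2 < 2 * q 4 ∧ q 3 < 2 * q 4
    · rw [if_pos hv, if_pos hv]
      by_cases hs : q 1 = 0
      · rw [if_pos hs, if_pos hs]
        exact gr_gr hb h2 h1 a
      · rw [if_neg hs, if_neg hs]
        exact gx_gx hb h2 h1 _ _ a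
    · rw [if_neg hv, if_neg hv]
  · have hb := base_good hτ (fun i => q i.succ.succ.succ.succ)
    unfold cfam
    by_cases hv : 4 * q 4 ≤ q 0 ∧ q 2 < 2 * q 4 ∧ q 3 < 2 * q 4
    · rw [if_pos hv]
      by_cases hs : q 1 = 0
      · rw [if_pos hs]
        exact gr_large (by omega)
      · rw [if_neg hs]
        refine gx_large hb hv.2.1 hv.2.2 (a := a) ?_
        change 2 * (2 * q 4) ≤ a
        omega
    · rw [if_neg hv]
  · rw [Bd.delta0_iff]
    have hp : ∀ i : Fin (K + 1), PF (fun v : Fin (K + 7) → ℕ =>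
        v i.succ.succ.succ.succ.succ.succ) := fun i => PF.proj _
    have hc : Bd (fun v : Fin (K + 7) → ℕ => 4 * v 6 ≤ v 2 ∧ v 4 < 2 * v 6 ∧ v 5 < 2 * v 6) :=
      Bd.and (Bd.lef ((PF.const 4).mul (PF.proj 6)) (PF.proj 2))
        (Bd.and (Bd.ltf (PF.proj 4) ((PF.const 2).mul (PF.proj 6)))
          (Bd.ltf (PF.proj 5) ((PF.const 2).mul (PF.proj 6))))
    have e3 : Bd (fun v : Fin (K + 7) → ℕ => v 3 = 0) := Bd.eqf (PF.proj 3) (PF.const 0)
    have hgr : Bd (fun v : Fin (K + 7) → ℕ =>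
        gr (base (τ (fun i => v i.succ.succ.succ.succ.succ.succ)) (v 6))
          (binv (τ (fun i => v i.succ.succ.succ.succ.succ.succ)) (v 6)) (2 * v 6) (v 0) = v 1) :=
      bd_gr hτ hp (PF.proj 0) (PF.proj 1)
    have hgx : Bd (fun v : Fin (K + 7) → ℕ =>
        gx (base (τ (fun i => v i.succ.succ.succ.succ.succ.succ)) (v 6))
          (binv (τ (fun i => v i.succ.succ.succ.succ.succ.succ)) (v 6)) (2 * v 6) (v 4) (v 5)
            (v 0) = v 1) :=
      bd_gx hτ hp (PF.proj 4) (PF.proj 5) (PF.proj 0) (PF.proj 1)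
    refine (Bd.or (Bd.and hc (Bd.or (Bd.and e3 hgr) (Bd.and (Bd.not e3) hgx)))
      (Bd.and (Bd.not hc) (Bd.eqf (PF.proj 0) (PF.proj 1)))).congr fun v => ?_
    have key : cfam τ (fun i => v i.succ.succ) (v 0) =
        if 4 * v 6 ≤ v 2 ∧ v 4 < 2 * v 6 ∧ v 5 < 2 * v 6 then
          if v 3 = 0 then gr (base (τ (fun i => v i.succ.succ.succ.succ.succ.succ)) (v 6))
            (binv (τ (fun i => v i.succ.succ.succ.succ.succ.succ)) (v 6)) (2 * v 6) (v 0)
          else gx (base (τ (fun i => v i.succ.succ.succ.succ.succ.succ)) (v 6))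
            (binv (τ (fun i => v i.succ.succ.succ.succ.succ.succ)) (v 6)) (2 * v 6) (v 4) (v 5)
              (v 0)
        else v 0 := rfl
    rw [key]
    split_ifs with h1 h2 <;> tauto

end

end Pool.Agent.J4H68.CC
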