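import Pool.Agent.J4H68.CC.CompFam

/-!
# Counting components modulo `m ≥ 2`: the reduction
-/

set_option autoImplicit false

namespace Pool.Agent.J4H68.CC

open Function Pool.Agent.J4H63.GZ

section

variable {K : ℕ} {τ : (Fin (K + 1) → ℕ) → ℕ → ℕ}

/-- the same orbit, in terms of the numbers of components -/
def COf (m : ℕ) (D : (Fin (K + 5) → ℕ) → Prop) (p : Fin (K + 1) → ℕ) (x y : ℕ) : Prop :=
  ∃ r, r ≤ m ∧ (D (qv (4 * p 0 + 2 * r) 0 x y p) ∧ D (qv (4 * p 0 + 2 * r) 1 x y p))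

theorem orb_iff_COf (hτ : InvFamily K τ) {m : ℕ} (hm : 2 ≤ m) (p : Fin (K + 1) → ℕ) {x y : ℕ}
    (hx : x < 2 * p 0) (hy : y < 2 * p 0) {D : (Fin (K + 5) → ℕ) → Prop}
    (hD : ∀ B s, B ≤ 4 * p 0 + 2 * m → s ≤ 1 →
      (D (qv B s x y p) ↔ m ∣ numComps (cfam τ (qv B s x y p)) B)) :
    Orb (base (τ p) (p 0)) x y ↔ (x = y ∨ COf m D p x y) := by
  have hg := base_good hτ p
  have e1 := base_binv hτ p
  have e2 := binv_base hτ p
  set f := base (τ p) (p 0) with hf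
  set g := binv (τ p) (p 0) with hg0
  have h0 : ∀ r, r ≤ m → (D (qv (4 * p 0 + 2 * r) 0 x y p) ↔ m ∣ numCycles f (2 * p 0) + r) := by
    intro r hr
    rw [hD _ _ (by omega) (by omega), cfam_zero p (by omega) hx hy, ← hf, ← hg0,
      show 4 * p 0 + 2 * r = 2 * (2 * p 0 + r) by ring, numComps_gr hg e1]
  have h1 : ∀ r, r ≤ m → (D (qv (4 * p 0 + 2 * r) 1 x y p) ↔
      m ∣ numComps (gx f g (2 * p 0) x y) (2 * (2 * p 0 + r))) := by
    intro r hr
    rw [hD _ _ (by omega) (by omega), cfam_one p (by omega) hx hy, ← hf, ← hg0,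
      show 4 * p 0 + 2 * r = 2 * (2 * p 0 + r) by ring]
  by_cases hxy : x = y
  · subst hxy
    exact ⟨fun _ => Or.inl rfl, fun _ => Orb.refl _ _⟩
  constructor
  · intro ho
    right
    refine ⟨m - numCycles f (2 * p 0) % m, by omega, ?_⟩
    have hmod : numCycles f (2 * p 0) % m < m := Nat.mod_lt _ (by omega)
    have hdiv := Nat.div_add_mod (numCycles f (2 * p 0)) m
    have key : m ∣ numCycles f (2 * p 0) + (m - numCycles f (2 * p 0) % m) := by
      refine ⟨numCycles f (2 * p 0) / m + 1, ?_⟩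
      rw [mul_add, mul_one]
      omega
    refine ⟨(h0 _ (by omega)).2 key, (h1 _ (by omega)).2 ?_⟩
    rw [numComps_same hg e2 e1 hx hy hxy ho]
    exact key
  · rintro (h | ⟨r, hr, h2, h3⟩)
    · exact absurd h hxy
    · by_contra ho
      have hc := numComps_diff hg e2 e1 hx hy hxy ho r
      have h4 := (h0 r hr).1 h2
      have h5 := (h1 r hr).1 h3
      rw [← hc] at h4
      have h6 := (Nat.dvd_add_right h5).1 h4
      have h7 := Nat.le_of_dvd (by omega) h6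
      omega

/-- the formula for the linking relation -/
def linkC (τ : (Fin (K + 1) → ℕ) → ℕ → ℕ) (m : ℕ) (D : (Fin (K + 5) → ℕ) → Prop)
    (v : Fin (K + 3) → ℕ) : Prop :=
  (2 * v 2 ≤ v 0 ∧ ∃ k, k ≤ v 0 ∧
    ((v 0 = 2 * k ∨ v 0 = 2 * k + 1) ∧ (v 1 = 2 * k ∨ v 1 = 2 * k + 1))) ∨
  ((v 0 < 2 * v 2 ∧ v 1 < 2 * v 2) ∧
    ((v 0 = v 1 ∨ COf m D (fun i => v i.succ.succ) (v 0) (v 1)) ∨
      ∃ x', x' ≤ v 0 + v 2 ∧ (τ (fun i => v i.succ.succ) (v 0) = x' ∧
        (x' = v 1 ∨ COf m D (fun i => v i.succ.succ) x' (v 1)))))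

theorem linkC_iff (hτ : InvFamily K τ) {m : ℕ} (hm : 2 ≤ m) (v : Fin (K + 3) → ℕ)
    {D : (Fin (K + 5) → ℕ) → Prop}
    (hD : ∀ B s x y, B ≤ 4 * v 2 + 2 * m → s ≤ 1 → x < 2 * v 2 → y < 2 * v 2 →
      (D (qv B s x y (fun i => v i.succ.succ)) ↔
        m ∣ numComps (cfam τ (qv B s x y (fun i => v i.succ.succ))) B)) :
    LinkRel τ v ↔ linkC τ m D v := by
  set p : Fin (K + 1) → ℕ := fun i => v i.succ.succ with hp
  have hp0 : p 0 = v 2 := rfl
  have hL : LinkRel τ v ↔ Linked (τ p) (v 0) (v 1) := Iff.rfl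
  rw [hL]
  unfold linkC
  rw [← hp]
  rcases lt_or_ge (v 0) (2 * v 2) with h0 | h0
  · rw [linked_iff_orb hτ p (by rw [hp0]; exact h0)]
    have hg := base_good hτ p
    have hτx : τ p (v 0) < 2 * v 2 := hτ.lt p (by rw [hp0]; omega) h0
    have hτx' : τ p (v 0) ≤ v 0 + v 2 := by
      have := hτ.lt p (N := v 0 + v 2 + 1) (x := v 0) (by rw [hp0]; omega) (by omega)
      omega
    constructor
    · intro h
      right
      have h1 : v 1 < 2 * v 2 := by
        rcases h with h | h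
        · exact orb_lt hg h0 h
        · exact orb_lt hg hτx h
      refine ⟨⟨h0, h1⟩, ?_⟩
      rcases h with h | h
      · left
        exact (orb_iff_COf hτ hm p h0 h1 fun B s hB hs => hD B s _ _ hB hs h0 h1).1 h
      · right
        refine ⟨τ p (v 0), hτx', rfl, ?_⟩
        exact (orb_iff_COf hτ hm p hτx h1 fun B s hB hs => hD B s _ _ hB hs hτx h1).1 h
    · rintro (⟨h1, _⟩ | ⟨⟨_, h1⟩, h | ⟨x', _, h2, h⟩⟩)
      · omega
      · left
        exact (orb_iff_COf hτ hm p h0 h1 fun B s hB hs => hD B s _ _ hB hs h0 h1).2 h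
      · right
        rw [← h2] at h
        exact (orb_iff_COf hτ hm p hτx h1 fun B s hB hs => hD B s _ _ hB hs hτx h1).2 h
  · rw [linked_large hτ p (by rw [hp0]; exact h0)]
    constructor
    · intro h
      exact Or.inl ⟨h0, v 0 / 2, by omega, by omega, by omega⟩
    · rintro (⟨_, k, _, h1, h2⟩ | ⟨⟨h1, _⟩, _⟩)
      · omega
      · omega

end

section

variable {ι : Type}

theorem bd_COf {K : ℕ} (m : ℕ) {D : (ι → ℕ) → (Fin (K + 5) → ℕ) → Prop} (hD : DBd D)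
    {p : Fin (K + 1) → (ι → ℕ) → ℕ} (hp : ∀ i, PF (p i)) {x y : (ι → ℕ) → ℕ} (hx : PF x)
    (hy : PF y) : Bd (fun v => COf m (D v) (fun i => p i v) (x v) (y v)) := by
  have hp' : ∀ i, PF (fun w : Option ι → ℕ => p i (fun j => w (some j))) := fun i => PFup (hp i)
  have hc : PF (fun w : Option ι → ℕ => 4 * p 0 (fun j => w (some j)) + 2 * w none) :=
    ((PF.const 4).mul (hp' 0)).add ((PF.const 2).mul (PF.proj none))
  have h1 := hD.up.app (PF.cons hc (PF.cons (PF.const 0) (PF.cons (PFup hx)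
    (PF.cons (PFup hy) hp'))))
  have h2 := hD.up.app (PF.cons hc (PF.cons (PF.const 1)
    (PF.cons (PFup hx) (PF.cons (PFup hy) hp'))))
  exact Bd.ex_le (b := fun _ => m) (P := fun v r =>
    D v (qv (4 * p 0 v + 2 * r) 0 (x v) (y v) (fun i => p i v)) ∧
      D v (qv (4 * p 0 v + 2 * r) 1 (x v) (y v) (fun i => p i v))) (PF.const m)
    (Bd.and h1 h2)

theorem bd_linkC {K : ℕ} {τ : (Fin (K + 1) → ℕ) → ℕ → ℕ} (hτ : InvFamily K τ) (m : ℕ)
    {D : (ι → ℕ) → (Fin (K + 5) → ℕ) → Prop} (hD : DBd D)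
    {u : Fin (K + 3) → (ι → ℕ) → ℕ} (hu : ∀ i, PF (u i)) :
    Bd (fun v => linkC τ m (D v) (fun i => u i v)) := by
  have h2 : PF (fun v => 2 * u 2 v) := (PF.const 2).mul (hu 2)
  have hp : ∀ i : Fin (K + 1), PF (u i.succ.succ) := fun i => hu _
  have hA : Bd (fun v => 2 * u 2 v ≤ u 0 v ∧ ∃ k ≤ u 0 v,
      ((u 0 v = 2 * k ∨ u 0 v = 2 * k + 1) ∧ (u 1 v = 2 * k ∨ u 1 v = 2 * k + 1))) := by
    refine Bd.and (Bd.lef h2 (hu 0)) (Bd.ex_le (P := fun v k =>
      ((u 0 v = 2 * k ∨ u 0 v = 2 * k + 1) ∧ (u 1 v = 2 * k ∨ u 1 v = 2 * k + 1))) (hu 0) ?_)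
    have hk : PF (fun w : Option ι → ℕ => 2 * w none) := (PF.const 2).mul (PF.proj none)
    exact Bd.and (Bd.or (Bd.eqf (PFup (hu 0)) hk) (Bd.eqf (PFup (hu 0)) (hk.add (PF.const 1))))
      (Bd.or (Bd.eqf (PFup (hu 1)) hk) (Bd.eqf (PFup (hu 1)) (hk.add (PF.const 1))))
  have hB : Bd (fun v => u 0 v < 2 * u 2 v ∧ u 1 v < 2 * u 2 v) :=
    Bd.and (Bd.ltf (hu 0) h2) (Bd.ltf (hu 1) h2)
  have hC : Bd (fun v => u 0 v = u 1 v ∨ COf m (D v) (fun i => u i.succ.succ v) (u 0 v) (u 1 v)) :=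
    Bd.or (Bd.eqf (hu 0) (hu 1)) (bd_COf m hD hp (hu 0) (hu 1))
  have hE : Bd (fun v => ∃ x' ≤ u 0 v + u 2 v, (τ (fun i => u i.succ.succ v) (u 0 v) = x' ∧
      (x' = u 1 v ∨ COf m (D v) (fun i => u i.succ.succ v) x' (u 1 v)))) := by
    refine Bd.ex_le (P := fun v x' => (τ (fun i => u i.succ.succ v) (u 0 v) = x' ∧
      (x' = u 1 v ∨ COf m (D v) (fun i => u i.succ.succ v) x' (u 1 v))))
      ((hu 0).add (hu 2)) ?_
    refine Bd.and ?_ (Bd.or ?_ ?_)
    · exact bd_graph hτ.graph (p := fun i w => u i.succ.succ (fun j => w (some j)))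
        (fun i => PFup (hp i)) (PFup (hu 0)) (PF.proj none)
    · exact Bd.eqf (PF.proj none) (PFup (hu 1))
    · exact bd_COf m hD.up (p := fun i w => u i.succ.succ (fun j => w (some j)))
        (fun i => PFup (hp i)) (PF.proj none) (PFup (hu 1))
  exact Bd.or hA (Bd.and hB (Bd.or hC hE))

end

theorem adv_of_comps {K : ℕ} {τ : (Fin (K + 1) → ℕ) → ℕ → ℕ} (hτ : InvFamily K τ) {m : ℕ}
    (hm : 2 ≤ m) (h : Adv (fun q : Fin (K + 5) → ℕ => m ∣ numComps (cfam τ q) (q 0))) :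
    Adv (LinkRel τ) := by
  obtain ⟨A, hA, Φ, c, hΦ, h⟩ := h
  refine ⟨A, hA, fun u => linkC τ m (fun q => Φ (Sum.elim (fun i => u (Sum.inl i)) q))
    (fun i => u (Sum.inr i)), (m + 3) * c, ?_, fun z => ?_⟩
  · refine bd_linkC hτ m (D := fun u q => Φ (Sum.elim (fun i => u (Sum.inl i)) q)) ?_
      (u := fun i u => u (Sum.inr i)) fun i => PF.proj _
    refine (hΦ.subst (f := fun s (w : (A ⊕ Fin (K + 3)) ⊕ Fin (K + 5) → ℕ) =>
      Sum.elim (fun i => w (Sum.inl (Sum.inl i))) (fun j => w (Sum.inr j)) s) ?_).congr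
      fun v => Iff.rfl
    rintro (i | i)
    · exact PF.proj _
    · exact PF.proj _
  · obtain ⟨α, hα, hα'⟩ := h (4 * z + 2 * m)
    refine ⟨α, fun i => (hα i).trans ?_, fun v hv => ?_⟩
    · rw [pow_mul]
      refine Nat.pow_le_pow_left ?_ c
      have h1 : m + 1 ≤ 2 ^ m := Nat.lt_two_pow_self
      have h2 : 2 ^ m ≤ (z + 2) ^ m := Nat.pow_le_pow_left (by omega) m
      have h3 : (z + 2) ^ (m + 3) = (z + 2) ^ m * ((z + 2) * (z + 2) * (z + 2)) := by ring
      have h4 : (m + 1) * ((z + 2) * (z + 2) * (z + 2)) ≤ (z + 2) ^ (m + 3) := by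
        rw [h3]
        exact Nat.mul_le_mul_right _ (h1.trans h2)
      have h5 : 4 * (z + 2) ≤ (z + 2) * (z + 2) * (z + 2) := by nlinarith
      have h6 : (m + 1) * (4 * (z + 2)) ≤ (m + 1) * ((z + 2) * (z + 2) * (z + 2)) :=
        Nat.mul_le_mul_left _ h5
      nlinarith
    · refine linkC_iff hτ hm v (D := fun q => Φ (Sum.elim α q)) fun B s x y hB hs hx hy => ?_
      have h0 := hv 2
      refine (hα' (qv B s x y (fun i => v i.succ.succ)) ?_).symm
      intro i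
      refine Fin.cases ?_ (fun i => Fin.cases ?_ (fun i => Fin.cases ?_ (fun i =>
        Fin.cases ?_ (fun i => ?_) i) i) i) i
      · change B ≤ _
        omega
      · change s ≤ _
        omega
      · change x ≤ _
        omega
      · change y ≤ _
        omega
      · exact (hv _).trans (by omega)

theorem adv_inv {e m : ℕ} (he : 1 ≤ e)
    (hnear : ∀ (K : ℕ) (τ : (Fin (K + 1) → ℕ) → ℕ → ℕ), InvFamily K τ →
      NearDelta0 e (K + 1) (fun p => m ∣ numComps (τ p) (p 0))) {K : ℕ}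
    {τ : (Fin (K + 1) → ℕ) → ℕ → ℕ} (hτ : InvFamily K τ) :
    Adv (fun p : Fin (K + 1) → ℕ => m ∣ numComps (τ p) (p 0)) := by
  refine adv_of_near he ?_
  set C := (K + 1) * (e - 1) + 1
  have hle : K + 1 ≤ K + C + 1 := by omega
  let τ' : (Fin (K + C + 1) → ℕ) → ℕ → ℕ := fun p => τ (fun i => p (Fin.castLE hle i))
  have hτ' : InvFamily (K + C) τ' := by
    refine ⟨fun p x => hτ.inv _ x, fun p x hx => hτ.fix _ x hx, ?_⟩
    rw [Bd.delta0_iff]
    have h3 : K + 3 ≤ K + C + 3 := by omega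
    refine ((Bd.of_delta0 hτ.graph).subst
      (f := fun i (v : Fin (K + C + 3) → ℕ) => v (Fin.castLE h3 i)) fun i => PF.proj _).congr
      fun v => ?_
    exact Iff.rfl
  have e1 : K + C + 1 = K + 1 + C := by omega
  have h := near_cast e1 (hnear _ _ hτ')
  have h0 : Fin.cast e1 (0 : Fin (K + C + 1)) = Fin.castAdd C (0 : Fin (K + 1)) := by
    ext
    simp
  have h2 : ∀ i : Fin (K + 1), Fin.cast e1 (Fin.castLE hle i) = Fin.castAdd C i := by
    intro i
    ext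
    simp
  convert h using 1
  funext u
  simp only [τ', h0, h2]

theorem delta0_of_comps {e m : ℕ} (he : 1 ≤ e) (hm : 2 ≤ m)
    (hnear : ∀ (K : ℕ) (τ : (Fin (K + 1) → ℕ) → ℕ → ℕ), InvFamily K τ →
      NearDelta0 e (K + 1) (fun p => m ∣ numComps (τ p) (p 0))) {k : ℕ}
    {R : (Fin k → ℕ) → Prop} (hR : E2star k R) : Delta0 k R :=
  delta0_of_advlink (fun _ _ hτ => adv_of_comps hτ hm (adv_inv he hnear (cfam_family hτ))) hR

/-! ### The number of components is in `E²` -/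

section

variable {K : ℕ} {τ : (Fin (K + 1) → ℕ) → ℕ → ℕ}

theorem e2star_lead' (hτ : InvFamily K τ) :
    E2star (K + 2) (fun u => ∀ y, Linked (τ (fun i => u i.succ)) (u 0) y → u 0 ≤ y) := by
  have h1 : E2star (K + 3) (fun w => Linked (τ (fun i => w i.succ.succ)) (w 1) (w 0)) :=
    hτ.e2star.comp (E2.cons (E2.proj 1) (E2.cons (E2.proj 0)
      fun i : Fin (K + 1) => E2.proj i.succ.succ))
  have h2 : E2star (K + 3) (fun w => w 1 ≤ w 0) := E2star.le (E2.proj 1) (E2.proj 0)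
  have h3 := ((h2.not.and h1).ex (n := K + 2) (p := fun u => u 0) (E2.proj 0)).not
  refine Eq.mp ?_ h3
  congr 1
  funext u
  refine propext ?_
  constructor
  · intro h y hy
    by_contra hc
    exact h ⟨y, by omega, hc, hy⟩
  · rintro h ⟨y, _, h1, h2⟩
    exact h1 (h y h2)

theorem e2_numComps (hτ : InvFamily K τ) : E2 (K + 1) (fun p => numComps (τ p) (p 0)) := by
  have h1 := E2count (e2star_lead' hτ)
  exact E2.comp h1 (E2.cons (E2.proj 0) fun i : Fin (K + 1) => E2.proj i)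

theorem numComps_le (f : ℕ → ℕ) (N : ℕ) : numComps f N ≤ N := by
  unfold numComps
  calc {x : ℕ | x < N ∧ ∀ y, Linked f x y → x ≤ y}.ncard ≤ (Set.Iio N).ncard :=
        Set.ncard_le_ncard (fun x hx => hx.1) (Set.finite_Iio N)
    _ = N := by
      rw [← Finset.coe_range, Set.ncard_coe_finset, Finset.card_range]

theorem e2star_graph' (hτ : InvFamily K τ) :
    E2star (K + 2) (fun v => numComps (τ (fun i => v i.succ)) (v 1) = v 0) :=
  E2star.eqf (E2.comp (e2_numComps hτ) fun i : Fin (K + 1) => E2.proj i.succ) (E2.proj 0)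

theorem delta0_dvd' (m : ℕ)
    (h : Delta0 (K + 2) (fun v => numComps (τ (fun i => v i.succ)) (v 1) = v 0)) :
    Delta0 (K + 1) (fun p => m ∣ numComps (τ p) (p 0)) := by
  rw [Bd.delta0_iff] at h ⊢
  have h1 : Bd (fun w : Option (Option (Fin (K + 1))) → ℕ =>
      numComps (τ (fun i => w (some (some i)))) (w (some (some 0))) = w (some none)) :=
    (h.subst (f := fun i (w : Option (Option (Fin (K + 1))) → ℕ) =>
      (Matrix.vecCons (w (some none)) (fun i => w (some (some i))) : Fin (K + 2) → ℕ) i)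
      (PF.cons (PF.proj _) fun i => PF.proj _)).congr fun v => Iff.rfl
  refine (Bd.ex_le (b := fun p : Fin (K + 1) → ℕ => p 0) (P := fun p t => ∃ s ≤ t,
    numComps (τ p) (p 0) = t ∧ t = m * s) (PF.proj 0) (Bd.ex_le (P := fun w s =>
      numComps (τ (fun i => w (some i))) (w (some 0)) = w none ∧ w none = m * s) (PF.proj none)
      (Bd.and h1 (Bd.eqf (PF.proj _) ((PF.const m).mul (PF.proj none)))))).congr fun p => ?_
  constructor
  · rintro ⟨s, hs⟩
    rcases Nat.eq_zero_or_pos m with h0 | h0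
    · refine ⟨numComps (τ p) (p 0), numComps_le _ _, 0, Nat.zero_le _, rfl, ?_⟩
      rw [hs, h0]
      simp
    · refine ⟨numComps (τ p) (p 0), numComps_le _ _, s, ?_, rfl, hs⟩
      rw [hs]
      exact Nat.le_mul_of_pos_left s h0
  · rintro ⟨t, _, s, _, h2, h3⟩
    exact ⟨s, by rw [h2, h3]⟩

end

end Pool.Agent.J4H68.CC
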