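import Pool.Agent.J4H68.CC.Bnd

/-!
# The number of cycles of a `Δ₀` family of permutations is in `E²`
-/

set_option autoImplicit false

namespace Pool.Agent.J4H68.CC

open Function Pool.Agent.J4H63.GZ

/-- counting below a bound -/
theorem E2count {n : ℕ} {P : (Fin (n + 1) → ℕ) → Prop} (hP : E2star (n + 1) P) :
    E2 (n + 1) (fun u => {x : ℕ | x < u 0 ∧ P (Matrix.vecCons x (fun i => u i.succ))}.ncard) := by
  obtain ⟨f, hf, hf'⟩ := hP
  have hfc := E2.comp (n := n + 2) hf (E2.cons (E2.proj 1) fun i : Fin n => E2.proj i.succ.succ)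
  have hrec := E2.rec' (n := n) (g := fun _ => 0)
    (h := fun w => w 0 + (1 - f (fun i => Matrix.vecCons (w 1) (fun i => w i.succ.succ) i)))
    (b := fun u => u 0) E2.zero (E2.add (E2.proj 0) (E2.sub E2.one hfc)) (E2.proj 0)
  set F : (Fin n → ℕ) → ℕ → ℕ := fun v y => Nat.rec (motive := fun _ => ℕ) 0
    (fun y r => r + (1 - f (Matrix.vecCons y v))) y with hF
  have hspec : ∀ v y, {x : ℕ | x < y ∧ P (Matrix.vecCons x v)}.ncard = F v y := by
    intro v y
    induction y with
    | zero =>
      have e : {x : ℕ | x < 0 ∧ P (Matrix.vecCons x v)} = ∅ := by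
        ext x
        simp
      rw [e, Set.ncard_empty]
      rfl
    | succ y ih =>
      have e : F v (y + 1) = F v y + (1 - f (Matrix.vecCons y v)) := rfl
      have hfin : {x : ℕ | x < y ∧ P (Matrix.vecCons x v)}.Finite :=
        (Set.finite_lt_nat y).subset fun x hx => hx.1
      by_cases hy : P (Matrix.vecCons y v)
      · have e1 : {x : ℕ | x < y + 1 ∧ P (Matrix.vecCons x v)} =
            insert y {x : ℕ | x < y ∧ P (Matrix.vecCons x v)} := by
          ext x
          simp only [Set.mem_ofPred_eq, Set.mem_insert_iff]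
          constructor
          · rintro ⟨h1, h2⟩
            by_cases h3 : x = y
            · exact Or.inl h3
            · exact Or.inr ⟨by omega, h2⟩
          · rintro (rfl | ⟨h1, h2⟩)
            · exact ⟨by omega, hy⟩
            · exact ⟨by omega, h2⟩
        rw [e1, Set.ncard_insert_of_notMem (by
          intro h
          exact absurd h.1 (by omega)) hfin, ih, e, (hf' _).1 hy]
      · have e1 : {x : ℕ | x < y + 1 ∧ P (Matrix.vecCons x v)} =
            {x : ℕ | x < y ∧ P (Matrix.vecCons x v)} := by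
          ext x
          simp only [Set.mem_ofPred_eq]
          constructor
          · rintro ⟨h1, h2⟩
            have h3 : x ≠ y := by
              rintro rfl
              exact hy h2
            exact ⟨by omega, h2⟩
          · rintro ⟨h1, h2⟩
            exact ⟨by omega, h2⟩
        rw [e1, ih, e, (hf' _).2 hy]
        rfl
  have hle : ∀ v y, F v y ≤ y := by
    intro v y
    induction y with
    | zero => exact le_rfl
    | succ y ih =>
      have e : F v (y + 1) = F v y + (1 - f (Matrix.vecCons y v)) := rfl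
      omega
  have h1 := hrec fun v y => hle v y
  have e : (fun u : Fin (n + 1) → ℕ =>
      {x : ℕ | x < u 0 ∧ P (Matrix.vecCons x (fun i => u i.succ))}.ncard) =
      fun u => F (fun i => u i.succ) (u 0) := by
    funext u
    exact hspec _ _
  rw [e]
  exact h1

section

variable {K : ℕ} {π : (Fin (K + 1) → ℕ) → ℕ → ℕ}

theorem PermFamily.lt (hπ : PermFamily K π) (p : Fin (K + 1) → ℕ) {N x : ℕ} (hN : p 0 ≤ N)
    (hx : x < N) : π p x < N := by
  by_contra h
  have h1 := hπ.fix p (π p x) (by omega)
  have h2 := (hπ.bij p).1 h1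
  omega

theorem PermFamily.e2 (hπ : PermFamily K π) :
    E2 (K + 2) (fun u => π (fun i => u i.succ) (u 0)) := by
  obtain ⟨f, hf, hf'⟩ := e2star_of_delta0 hπ.graph
  have hrec := E2.rec' (n := K + 2) (g := fun _ => 0)
    (h := fun w => w 0 * f (fun i => Matrix.vecCons (w 2) (Matrix.vecCons (w 1)
      (fun i => w i.succ.succ.succ)) i) + w 1 * (1 - f (fun i => Matrix.vecCons (w 2)
        (Matrix.vecCons (w 1) (fun i => w i.succ.succ.succ)) i)))
    (b := fun u => u 0) E2.zero ?_ (E2.proj 0)
  · set F : (Fin (K + 2) → ℕ) → ℕ → ℕ := fun u y => Nat.rec (motive := fun _ => ℕ) 0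
      (fun y r => r * f (Matrix.vecCons (u 0) (Matrix.vecCons y (fun i => u i.succ))) +
        y * (1 - f (Matrix.vecCons (u 0) (Matrix.vecCons y (fun i => u i.succ))))) y with hF
    have hspec : ∀ u y, (F u y = π (fun i => u i.succ) (u 0) ∧ π (fun i => u i.succ) (u 0) < y) ∨
        (F u y = 0 ∧ y ≤ π (fun i => u i.succ) (u 0)) := by
      intro u y
      induction y with
      | zero => exact Or.inr ⟨rfl, Nat.zero_le _⟩
      | succ y ih =>
        have e : F u (y + 1) = F u y * f (Matrix.vecCons (u 0) (Matrix.vecCons y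
          (fun i => u i.succ))) + y * (1 - f (Matrix.vecCons (u 0) (Matrix.vecCons y
            (fun i => u i.succ)))) := rfl
        by_cases hy : π (fun i => u i.succ) (u 0) = y
        · left
          have h1 := (hf' (Matrix.vecCons (u 0) (Matrix.vecCons y (fun i => u i.succ)))).1 hy
          rw [e, h1]
          omega
        · have h1 := (hf' (Matrix.vecCons (u 0) (Matrix.vecCons y (fun i => u i.succ)))).2 hy
          rw [e, h1]
          rcases ih with ⟨h2, h3⟩ | ⟨h2, h3⟩
          · left
            rw [h2]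
            omega
          · right
            rw [h2]
            omega
    have hrec' : E2 (K + 3) (fun u => F (fun i => u i.succ) (u 0)) := by
      refine hrec fun v y => ?_
      change F v y ≤ y
      rcases hspec v y with ⟨h1, h2⟩ | ⟨h1, _⟩ <;> omega
    have h3 : E2 (K + 2) (fun u => F u (u 0 + u 1 + 1)) :=
      E2.comp hrec' (E2.cons (E2.add (E2.add (E2.proj 0) (E2.proj 1)) E2.one) fun i => E2.proj i)
    have e : (fun u : Fin (K + 2) → ℕ => π (fun i => u i.succ) (u 0)) =
        fun u => F u (u 0 + u 1 + 1) := by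
      funext u
      have h4 := hπ.lt (fun i => u i.succ) (N := u 0 + u 1 + 1) (x := u 0)
        (by change u 1 ≤ _; omega) (by omega)
      rcases hspec u (u 0 + u 1 + 1) with ⟨h1, _⟩ | ⟨_, h2⟩
      · exact h1.symm
      · omega
    rw [e]
    exact h3
  · have hfc := E2.comp (n := K + 4) hf (E2.cons (E2.proj 2) (E2.cons (E2.proj 1)
      fun i : Fin (K + 1) => E2.proj i.succ.succ.succ))
    exact E2.add (E2.mulf (E2.proj 0) hfc) (E2.mulf (E2.proj 1) (E2.sub E2.one hfc))

theorem PermFamily.iter (hπ : PermFamily K π) :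
    E2 (K + 3) (fun u => (π (fun i => u i.succ.succ))^[u 0] (u 1)) := by
  have hrec := E2.rec' (n := K + 2) (g := fun u => u 0)
    (h := fun w => π (fun i => w i.succ.succ.succ) (w 0))
    (b := fun u => u 1 + u 2 + 1) (E2.proj 0) ?_
    (E2.add (E2.add (E2.proj 1) (E2.proj 2)) E2.one)
  · have e : ∀ (v : Fin (K + 2) → ℕ) (y : ℕ), Nat.rec (motive := fun _ => ℕ) (v 0)
        (fun _ r => π (fun i => v i.succ) r) y = (π (fun i => v i.succ))^[y] (v 0) := by
      intro v y
      induction y with
      | zero => rfl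
      | succ y ih =>
        rw [Function.iterate_succ_apply', ← ih]
    have hrec' := hrec (fun v y => by
      change Nat.rec (motive := fun _ => ℕ) (v 0)
        (fun _ r => π (fun i => v i.succ) r) y ≤ v 0 + v 1 + 1
      rw [e]
      have hg : Good (π (fun i => v i.succ)) (v 0 + v 1 + 1) :=
        ⟨(hπ.bij _).1, fun a ha => hπ.fix _ a (by
          change v 1 ≤ a
          omega)⟩
      have h := hg.iter_lt (x := v 0) (by omega) y
      omega)
    refine Eq.mp ?_ hrec'
    congr 1
    funext u
    exact e (fun i => u i.succ) (u 0)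
  · exact E2.comp (n := K + 4) hπ.e2 (E2.cons (E2.proj 0)
      fun i : Fin (K + 1) => E2.proj i.succ.succ.succ)

theorem Good.lead_iff {f : ℕ → ℕ} {N : ℕ} (h : Good f N) (x : ℕ) :
    (∀ j, x ≤ f^[j] x) ↔ ¬ ∃ j, j ≤ N + 1 ∧ ¬ (x ≤ f^[j] x) := by
  constructor
  · rintro h1 ⟨j, _, h2⟩
    exact h2 (h1 j)
  · intro h1 j
    by_contra h2
    obtain ⟨k, hk, hk', hk''⟩ := h.period x
    have h3 : IsPeriodicPt f k x := hk''
    refine h1 ⟨j % k, (Nat.mod_lt _ hk).le.trans hk', ?_⟩
    rw [h3.iterate_mod_apply]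
    exact h2

theorem PermFamily.e2star_lead (hπ : PermFamily K π) :
    E2star (K + 2) (fun u => ∀ j, u 0 ≤ (π (fun i => u i.succ))^[j] (u 0)) := by
  have h1 : E2star (K + 3) (fun w => w 1 ≤ (π (fun i => w i.succ.succ))^[w 0] (w 1)) :=
    E2star.le (E2.proj 1) hπ.iter
  have h2 := (h1.not.ex (n := K + 2) (p := fun u => u 1 + 1) (E2.add (E2.proj 1) E2.one)).not
  refine Eq.mp ?_ h2
  congr 1
  funext u
  exact propext ((hπ.good (fun i => u i.succ)).lead_iff (u 0)).symm

theorem PermFamily.e2_numCycles (hπ : PermFamily K π) :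
    E2 (K + 1) (fun p => numCycles (π p) (p 0)) := by
  have h1 := E2count hπ.e2star_lead
  exact E2.comp h1 (E2.cons (E2.proj 0) fun i : Fin (K + 1) => E2.proj i)

theorem numCycles_le (f : ℕ → ℕ) (N : ℕ) : numCycles f N ≤ N := by
  unfold numCycles
  calc {x : ℕ | x < N ∧ ∀ j : ℕ, x ≤ f^[j] x}.ncard ≤ (Set.Iio N).ncard :=
        Set.ncard_le_ncard (fun x hx => hx.1) (Set.finite_Iio N)
    _ = N := by
      rw [← Finset.coe_range, Set.ncard_coe_finset, Finset.card_range]

theorem PermFamily.e2star_graph (hπ : PermFamily K π) :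
    E2star (K + 2) (fun v => numCycles (π (fun i => v i.succ)) (v 1) = v 0) :=
  E2star.eqf (E2.comp hπ.e2_numCycles fun i : Fin (K + 1) => E2.proj i.succ) (E2.proj 0)

theorem delta0_dvd (m : ℕ)
    (h : Delta0 (K + 2) (fun v => numCycles (π (fun i => v i.succ)) (v 1) = v 0)) :
    Delta0 (K + 1) (fun p => m ∣ numCycles (π p) (p 0)) := by
  rw [Bd.delta0_iff] at h ⊢
  have h1 : Bd (fun w : Option (Option (Fin (K + 1))) → ℕ =>
      numCycles (π (fun i => w (some (some i)))) (w (some (some 0))) = w (some none)) :=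
    (h.subst (f := fun i (w : Option (Option (Fin (K + 1))) → ℕ) =>
      (Matrix.vecCons (w (some none)) (fun i => w (some (some i))) : Fin (K + 2) → ℕ) i)
      (PF.cons (PF.proj _) fun i => PF.proj _)).congr fun v => Iff.rfl
  refine (Bd.ex_le (b := fun p : Fin (K + 1) → ℕ => p 0) (P := fun p t => ∃ s ≤ t,
    numCycles (π p) (p 0) = t ∧ t = m * s) (PF.proj 0) (Bd.ex_le (P := fun w s =>
      numCycles (π (fun i => w (some i))) (w (some 0)) = w none ∧ w none = m * s) (PF.proj none)
      (Bd.and h1 (Bd.eqf (PF.proj _) ((PF.const m).mul (PF.proj none)))))).congr fun p => ?_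
  constructor
  · rintro ⟨s, hs⟩
    rcases Nat.eq_zero_or_pos m with h0 | h0
    · refine ⟨numCycles (π p) (p 0), numCycles_le _ _, 0, Nat.zero_le _, rfl, ?_⟩
      rw [hs, h0]
      simp
    · refine ⟨numCycles (π p) (p 0), numCycles_le _ _, s, ?_, rfl, hs⟩
      rw [hs]
      exact Nat.le_mul_of_pos_left s h0
  · rintro ⟨t, _, s, _, h2, h3⟩
    exact ⟨s, by rw [h2, h3]⟩

end

end Pool.Agent.J4H68.CC
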