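import Pool.Agent.J4H63.GZ.Link

/-!
# Definitions: numbers of cycles and components, families of permutations
-/

set_option autoImplicit false

namespace Pool.Agent.J4H68.CC

open Pool.Agent.J4H63.GZ

/-- the number of cycles of `f` on `{0, …, N - 1}`, fixed points included: the number of the `x < N`
which are the least element of their orbit -/
noncomputable def numCycles (f : ℕ → ℕ) (N : ℕ) : ℕ :=
  {x : ℕ | x < N ∧ ∀ j : ℕ, x ≤ f^[j] x}.ncard

/-- A `Δ₀` family of permutations: for every parameter vector `p` the function `π p` is a
permutation of `ℕ` which fixes all numbers `≥ p 0`, and the graph of `π` is `Δ₀`. -/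
structure PermFamily (K : ℕ) (π : (Fin (K + 1) → ℕ) → ℕ → ℕ) : Prop where
  bij : ∀ p, Function.Bijective (π p)
  fix : ∀ p x, p 0 ≤ x → π p x = x
  graph : Delta0 (K + 3) (fun v => π (fun i => v i.succ.succ) (v 0) = v 1)

/-- the number of the `x < N` which are the least element of their component in the graph with the
edges `{a, τ a}` and `{2 j, 2 j + 1}` -/
noncomputable def numComps (τ : ℕ → ℕ) (N : ℕ) : ℕ :=
  {x : ℕ | x < N ∧ ∀ y, Linked τ x y → x ≤ y}.ncard

end Pool.Agent.J4H68.CC
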