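import Pool.Agent.J4H68.CC.Perm
import Pool.Agent.J4H63.GZ.Conv

/-!
# Cycle counts modulo `m` decide whether two numbers are linked by two involutions
-/

set_option autoImplicit false

namespace Pool.Agent.J4H68.CC

open Function Pool.Agent.J4H63.GZ

theorem PermFamily.good {K : ℕ} {π : (Fin (K + 1) → ℕ) → ℕ → ℕ} (h : PermFamily K π)
    (p : Fin (K + 1) → ℕ) : Good (π p) (p 0) := ⟨(h.bij p).1, h.fix p⟩

theorem Good.bij {f : ℕ → ℕ} {N : ℕ} (h : Good f N) : Bijective f := by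
  refine ⟨h.inj, fun y => ?_⟩
  obtain ⟨k, hk, _, hk'⟩ := h.period y
  obtain ⟨k, rfl⟩ : ∃ k', k = k' + 1 := ⟨k - 1, by omega⟩
  exact ⟨f^[k] y, by rw [← iterate_succ_apply' f, hk']⟩

/-- the composite of the two involutions, cut off -/
def base (τ : ℕ → ℕ) (c a : ℕ) : ℕ := if a < 2 * c then eps (τ a) else a

section

variable {K : ℕ} {τ : (Fin (K + 1) → ℕ) → ℕ → ℕ}

theorem base_good (hτ : InvFamily K τ) (p : Fin (K + 1) → ℕ) :
    Good (base (τ p) (p 0)) (2 * p 0) := by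
  have hlt : ∀ a < 2 * p 0, eps (τ p a) < 2 * p 0 := hτ.rho_lt p (N := p 0) (by omega)
  refine ⟨?_, fun a ha => if_neg (by omega)⟩
  intro a b h
  unfold base at h
  by_cases ha : a < 2 * p 0
  · by_cases hb : b < 2 * p 0
    · rw [if_pos ha, if_pos hb] at h
      exact rho_inj (hτ.inv p) h
    · rw [if_pos ha, if_neg hb] at h
      have := hlt a ha
      omega
  · by_cases hb : b < 2 * p 0
    · rw [if_neg ha, if_pos hb] at h
      have := hlt b hb
      omega
    · rw [if_neg ha, if_neg hb] at h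
      exact h

theorem base_iter (hτ : InvFamily K τ) (p : Fin (K + 1) → ℕ) {x : ℕ} (hx : x < 2 * p 0) (j : ℕ) :
    (base (τ p) (p 0))^[j] x = (rho (τ p))^[j] x := by
  induction j with
  | zero => rfl
  | succ j ih =>
    rw [iterate_succ_apply', iterate_succ_apply', ih]
    have h1 := iter_lt (τ := τ p) (N := 2 * p 0) (hτ.rho_lt p (N := p 0) (by omega)) hx j
    exact if_pos h1

/-- the linking relation in terms of the orbits of `base` -/
theorem linked_iff_orb (hτ : InvFamily K τ) (p : Fin (K + 1) → ℕ) {x : ℕ} (hx : x < 2 * p 0)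
    (y : ℕ) : Linked (τ p) x y ↔
      Orb (base (τ p) (p 0)) x y ∨ Orb (base (τ p) (p 0)) (τ p x) y := by
  have hx' : τ p x < 2 * p 0 := hτ.lt p (by omega) hx
  have h := linked_orbit (τ := τ p) (hτ.inv p) (N := 2 * p 0) (hτ.rho_lt p (N := p 0) (by omega))
    hx hx' y
  constructor
  · intro h1
    obtain ⟨j, _, h2 | h2⟩ := h.1 h1
    · exact Or.inl ⟨j, by rw [base_iter hτ p hx, h2]⟩
    · exact Or.inr ⟨j, by rw [base_iter hτ p hx', h2]⟩
  · rintro (⟨j, h1⟩ | ⟨j, h1⟩)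
    · rw [base_iter hτ p hx] at h1
      rw [← h1]
      exact linked_iter _ _ _
    · rw [base_iter hτ p hx'] at h1
      rw [← h1]
      exact (linked_tau _ _).trans (linked_iter _ _ _)

theorem linked_large (hτ : InvFamily K τ) (p : Fin (K + 1) → ℕ) {x : ℕ} (hx : 2 * p 0 ≤ x)
    (y : ℕ) : Linked (τ p) x y ↔ y / 2 = x / 2 := by
  constructor
  · intro h
    induction h with
    | refl => rfl
    | @tail b c _ hbc ih =>
      rcases hbc with rfl | h1
      · rw [hτ.fix p b (by omega)]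
        exact ih
      · omega
  · intro h
    exact Relation.ReflTransGen.single (Or.inr h)

/-- the parameter vector -/
def qv (B s x y : ℕ) (p : Fin (K + 1) → ℕ) : Fin (K + 5) → ℕ :=
  Matrix.vecCons B (Matrix.vecCons s (Matrix.vecCons x (Matrix.vecCons y p)))

/-- the family of permutations whose cycles are counted -/
def star (τ : (Fin (K + 1) → ℕ) → ℕ → ℕ) (q : Fin (K + 5) → ℕ) (a : ℕ) : ℕ :=
  if 2 * q 4 ≤ q 0 ∧ q 2 < 2 * q 4 ∧ q 3 < 2 * q 4 then
    if q 1 = 0 then base (τ (fun i => q i.succ.succ.succ.succ)) (q 4) a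
    else sw (base (τ (fun i => q i.succ.succ.succ.succ)) (q 4)) (q 2) (q 3) a
  else a

theorem star_good (hτ : InvFamily K τ) (q : Fin (K + 5) → ℕ) : Good (star τ q) (q 0) := by
  by_cases hv : 2 * q 4 ≤ q 0 ∧ q 2 < 2 * q 4 ∧ q 3 < 2 * q 4
  · have hb := base_good hτ (fun i => q i.succ.succ.succ.succ)
    have hup : ∀ {f : ℕ → ℕ}, Good f (2 * q 4) → Good f (q 0) := fun h =>
      ⟨h.inj, fun a ha => h.fix a (by omega)⟩
    by_cases hs : q 1 = 0
    · have e : star τ q = base (τ (fun i => q i.succ.succ.succ.succ)) (q 4) := by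
        funext a
        unfold star
        rw [if_pos hv, if_pos hs]
      rw [e]
      exact hup hb
    · have e : star τ q = sw (base (τ (fun i => q i.succ.succ.succ.succ)) (q 4)) (q 2) (q 3) := by
        funext a
        unfold star
        rw [if_pos hv, if_neg hs]
      rw [e]
      exact hup (hb.sw hv.2.1 hv.2.2)
  · have e : star τ q = fun a => a := by
      funext a
      unfold star
      rw [if_neg hv]
    rw [e]
    exact ⟨fun a b h => h, fun a _ => rfl⟩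

theorem star_zero (p : Fin (K + 1) → ℕ) {B x y : ℕ} (hB : 2 * p 0 ≤ B) (hx : x < 2 * p 0)
    (hy : y < 2 * p 0) : star τ (qv B 0 x y p) = base (τ p) (p 0) := by
  funext a
  have h1 : 2 * (qv B 0 x y p) 4 ≤ (qv B 0 x y p) 0 ∧ (qv B 0 x y p) 2 < 2 * (qv B 0 x y p) 4 ∧
      (qv B 0 x y p) 3 < 2 * (qv B 0 x y p) 4 := ⟨hB, hx, hy⟩
  have h2 : (qv B 0 x y p) 1 = 0 := rfl
  unfold star
  rw [if_pos h1, if_pos h2]
  rfl

theorem star_one (p : Fin (K + 1) → ℕ) {B x y : ℕ} (hB : 2 * p 0 ≤ B) (hx : x < 2 * p 0)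
    (hy : y < 2 * p 0) : star τ (qv B 1 x y p) = sw (base (τ p) (p 0)) x y := by
  funext a
  have h1 : 2 * (qv B 1 x y p) 4 ≤ (qv B 1 x y p) 0 ∧ (qv B 1 x y p) 2 < 2 * (qv B 1 x y p) 4 ∧
      (qv B 1 x y p) 3 < 2 * (qv B 1 x y p) 4 := ⟨hB, hx, hy⟩
  have h2 : ¬ (qv B 1 x y p) 1 = 0 := by
    change ¬ (1 = 0)
    omega
  unfold star
  rw [if_pos h1, if_neg h2]
  rfl

/-- the same orbit, in terms of cycle counts -/
def SOf (m : ℕ) (D : (Fin (K + 5) → ℕ) → Prop) (p : Fin (K + 1) → ℕ) (x y : ℕ) : Prop :=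
  ∃ r, r ≤ m ∧ (D (qv (2 * p 0 + r) 0 x y p) ∧ D (qv (2 * p 0 + r + (m - 1)) 1 x y p))

theorem orb_iff_SOf (hτ : InvFamily K τ) {m : ℕ} (hm : 3 ≤ m) (p : Fin (K + 1) → ℕ) {x y : ℕ}
    (hx : x < 2 * p 0) (hy : y < 2 * p 0) {D : (Fin (K + 5) → ℕ) → Prop}
    (hD : ∀ B s, B ≤ 2 * p 0 + 2 * m → s ≤ 1 →
      (D (qv B s x y p) ↔ m ∣ numCycles (star τ (qv B s x y p)) B)) :
    Orb (base (τ p) (p 0)) x y ↔ (x = y ∨ SOf m D p x y) := by
  have hg := base_good hτ p
  set f := base (τ p) (p 0) with hf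
  have h0 : ∀ r, r ≤ m → (D (qv (2 * p 0 + r) 0 x y p) ↔ m ∣ numCycles f (2 * p 0) + r) := by
    intro r hr
    rw [hD _ _ (by omega) (by omega), star_zero p (by omega) hx hy, ← hf, numCycles_add hg]
  have h1 : ∀ r, r ≤ m → (D (qv (2 * p 0 + r + (m - 1)) 1 x y p) ↔
      m ∣ numCycles (sw f x y) (2 * p 0) + (r + (m - 1))) := by
    intro r hr
    rw [hD _ _ (by omega) (by omega), star_one p (by omega) hx hy, ← hf,
      show 2 * p 0 + r + (m - 1) = 2 * p 0 + (r + (m - 1)) by omega,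
      numCycles_add (hg.sw hx hy)]
  by_cases hxy : x = y
  · subst hxy
    exact ⟨fun _ => Or.inl rfl, fun _ => Orb.refl _ _⟩
  constructor
  · intro ho
    right
    have hc := numCycles_split hg hx hy hxy ho
    refine ⟨m - numCycles f (2 * p 0) % m, by omega, ?_⟩
    have hmod : numCycles f (2 * p 0) % m < m := Nat.mod_lt _ (by omega)
    have hdiv := Nat.div_add_mod (numCycles f (2 * p 0)) m
    have key : m ∣ numCycles f (2 * p 0) + (m - numCycles f (2 * p 0) % m) := by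
      refine ⟨numCycles f (2 * p 0) / m + 1, ?_⟩
      rw [mul_add, mul_one]
      omega
    refine ⟨(h0 _ (by omega)).2 key, (h1 _ (by omega)).2 ?_⟩
    rw [hc]
    have e : numCycles f (2 * p 0) + 1 + (m - numCycles f (2 * p 0) % m + (m - 1)) =
        (numCycles f (2 * p 0) + (m - numCycles f (2 * p 0) % m)) + m := by omega
    rw [e]
    exact Dvd.dvd.add key (dvd_refl m)
  · rintro (h | ⟨r, hr, h2, h3⟩)
    · exact absurd h hxy
    · by_contra ho
      have hc := numCycles_join hg hx hy ho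
      have h4 := (h0 r hr).1 h2
      have h5 := (h1 r hr).1 h3
      rw [hc] at h4
      have e : numCycles (sw f x y) (2 * p 0) + (r + (m - 1)) =
          (numCycles (sw f x y) (2 * p 0) + 1 + r) + (m - 2) := by omega
      rw [e] at h5
      have h6 := (Nat.dvd_add_right h4).1 h5
      have h7 := Nat.le_of_dvd (by omega) h6
      omega

/-- the formula for the linking relation -/
def linkF (τ : (Fin (K + 1) → ℕ) → ℕ → ℕ) (m : ℕ) (D : (Fin (K + 5) → ℕ) → Prop)
    (v : Fin (K + 3) → ℕ) : Prop :=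
  (2 * v 2 ≤ v 0 ∧ ∃ k, k ≤ v 0 ∧
    ((v 0 = 2 * k ∨ v 0 = 2 * k + 1) ∧ (v 1 = 2 * k ∨ v 1 = 2 * k + 1))) ∨
  ((v 0 < 2 * v 2 ∧ v 1 < 2 * v 2) ∧
    ((v 0 = v 1 ∨ SOf m D (fun i => v i.succ.succ) (v 0) (v 1)) ∨
      ∃ x', x' ≤ v 0 + v 2 ∧ (τ (fun i => v i.succ.succ) (v 0) = x' ∧
        (x' = v 1 ∨ SOf m D (fun i => v i.succ.succ) x' (v 1)))))

theorem linkF_iff (hτ : InvFamily K τ) {m : ℕ} (hm : 3 ≤ m) (v : Fin (K + 3) → ℕ)
    {D : (Fin (K + 5) → ℕ) → Prop}
    (hD : ∀ B s x y, B ≤ 2 * v 2 + 2 * m → s ≤ 1 → x < 2 * v 2 → y < 2 * v 2 →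
      (D (qv B s x y (fun i => v i.succ.succ)) ↔
        m ∣ numCycles (star τ (qv B s x y (fun i => v i.succ.succ))) B)) :
    LinkRel τ v ↔ linkF τ m D v := by
  set p : Fin (K + 1) → ℕ := fun i => v i.succ.succ with hp
  have hp0 : p 0 = v 2 := rfl
  have hL : LinkRel τ v ↔ Linked (τ p) (v 0) (v 1) := Iff.rfl
  rw [hL]
  unfold linkF
  rw [← hp]
  rcases lt_or_ge (v 0) (2 * v 2) with h0 | h0
  · rw [linked_iff_orb hτ p (by rw [hp0]; exact h0)]
    have hg := base_good hτ p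
    have hτx : τ p (v 0) < 2 * v 2 := hτ.lt p (by rw [hp0]; omega) h0
    have hτx' : τ p (v 0) ≤ v 0 + v 2 := by
      have := hτ.lt p (N := v 0 + v 2 + 1) (x := v 0) (by rw [hp0]; omega) (by omega)
      omega
    constructor
    · intro h
      right
      have h1 : v 1 < 2 * v 2 := by
        rcases h with h | h
        · exact orb_lt hg h0 h
        · exact orb_lt hg hτx h
      refine ⟨⟨h0, h1⟩, ?_⟩
      rcases h with h | h
      · left
        exact (orb_iff_SOf hτ hm p h0 h1 fun B s hB hs => hD B s _ _ hB hs h0 h1).1 h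
      · right
        refine ⟨τ p (v 0), hτx', rfl, ?_⟩
        exact (orb_iff_SOf hτ hm p hτx h1 fun B s hB hs => hD B s _ _ hB hs hτx h1).1 h
    · rintro (⟨h1, _⟩ | ⟨⟨_, h1⟩, h | ⟨x', _, h2, h⟩⟩)
      · omega
      · left
        exact (orb_iff_SOf hτ hm p h0 h1 fun B s hB hs => hD B s _ _ hB hs h0 h1).2 h
      · right
        rw [← h2] at h
        exact (orb_iff_SOf hτ hm p hτx h1 fun B s hB hs => hD B s _ _ hB hs hτx h1).2 h
  · rw [linked_large hτ p (by rw [hp0]; exact h0)]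
    constructor
    · intro h
      exact Or.inl ⟨h0, v 0 / 2, by omega, by omega, by omega⟩
    · rintro (⟨_, k, _, h1, h2⟩ | ⟨⟨h1, _⟩, _⟩)
      · omega
      · omega

end

end Pool.Agent.J4H68.CC
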