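import Pool.Agent.J4H68.CC.Conv

/-!
# The number of cycles modulo 2
-/

set_option autoImplicit false

namespace Pool.Agent.J4H68.CC

open Function Pool.Agent.J4H63.GZ

theorem numCycles_id (N : ℕ) : numCycles id N = N := by
  have h : Good id 0 := ⟨injective_id, fun a _ => rfl⟩
  have h1 := numCycles_add h N
  have h2 := numCycles_le id 0
  rw [zero_add] at h1
  omega

/-- the extension of a permutation of `Fin N` by the identity -/
def ext {N : ℕ} (σ : Equiv.Perm (Fin N)) (a : ℕ) : ℕ := if h : a < N then σ ⟨a, h⟩ else a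

theorem ext_lt {N : ℕ} (σ : Equiv.Perm (Fin N)) {a : ℕ} (h : a < N) : ext σ a = σ ⟨a, h⟩ :=
  dif_pos h

theorem ext_good {N : ℕ} (σ : Equiv.Perm (Fin N)) : Good (ext σ) N := by
  refine ⟨fun a b h => ?_, fun a ha => dif_neg (by omega)⟩
  by_cases ha : a < N
  · by_cases hb : b < N
    · rw [ext_lt σ ha, ext_lt σ hb] at h
      have h1 := σ.injective (Fin.ext h)
      exact congrArg Fin.val h1
    · rw [ext_lt σ ha, ext, dif_neg hb] at h
      have := (σ ⟨a, ha⟩).isLt
      omega
  · by_cases hb : b < N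
    · rw [ext_lt σ hb, ext, dif_neg ha] at h
      have := (σ ⟨b, hb⟩).isLt
      omega
    · rw [ext, ext, dif_neg ha, dif_neg hb] at h
      exact h

theorem ext_one (N : ℕ) : ext (1 : Equiv.Perm (Fin N)) = id := by
  funext a
  unfold ext
  split_ifs <;> rfl

theorem ext_mul_swap {N : ℕ} (σ : Equiv.Perm (Fin N)) (x y : Fin N) :
    ext (σ * Equiv.swap x y) = sw (ext σ) x y := by
  funext a
  by_cases ha : a < N
  · rw [ext_lt _ ha, Equiv.Perm.mul_apply]
    by_cases h1 : a = x
    · have h2 : (⟨a, ha⟩ : Fin N) = x := Fin.ext h1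
      rw [h2, Equiv.swap_apply_left, h1, sw_left, ext_lt σ y.isLt]
    · by_cases h3 : a = y
      · have h4 : (⟨a, ha⟩ : Fin N) = y := Fin.ext h3
        rw [h4, Equiv.swap_apply_right, h3, sw_right, ext_lt σ x.isLt]
      · rw [sw_of_ne _ h1 h3, Equiv.swap_apply_of_ne_of_ne (fun h => h1 (congrArg Fin.val h))
          (fun h => h3 (congrArg Fin.val h)), ext_lt σ ha]
  · have h1 : a ≠ x := by
      have := x.isLt
      omega
    have h3 : a ≠ y := by
      have := y.isLt
      omega
    rw [sw_of_ne _ h1 h3, ext, ext, dif_neg ha, dif_neg ha]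

theorem sign_eq_cycles {N : ℕ} (σ : Equiv.Perm (Fin N)) :
    Equiv.Perm.sign σ = (-1) ^ (numCycles (ext σ) N + N) := by
  induction σ using Equiv.Perm.swap_induction_on' with
  | one =>
    rw [ext_one, numCycles_id, map_one, ← two_mul, pow_mul]
    simp
  | mul_swap f x y hxy ih =>
    rw [ext_mul_swap, Equiv.Perm.sign_mul, ih, Equiv.Perm.sign_swap hxy]
    have hne : (x : ℕ) ≠ y := fun h => hxy (Fin.ext h)
    by_cases ho : Orb (ext f) x y
    · rw [numCycles_split (ext_good f) x.isLt y.isLt hne ho, add_right_comm _ 1 N, pow_succ]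
    · rw [numCycles_join (ext_good f) x.isLt y.isLt ho, add_right_comm _ 1 N, pow_succ,
        mul_assoc]
      simp

open Classical in
theorem sign_eq_inv {N : ℕ} (σ : Equiv.Perm (Fin N)) :
    Equiv.Perm.sign σ = (-1) ^ ((Finset.univ : Finset (Fin N × Fin N)).filter
      (fun q => q.1 < q.2 ∧ σ q.2 < σ q.1)).card := by
  rw [Equiv.Perm.sign_eq_prod_prod_Iio, Finset.card_eq_sum_ones, Finset.sum_filter]
  rw [← Finset.prod_pow_eq_pow_sum, Fintype.prod_prod_type_right]
  refine Finset.prod_congr rfl fun j _ => ?_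
  have h1 : (Finset.Iio j) = (Finset.univ : Finset (Fin N)).filter (fun i => i < j) := by
    ext i
    simp
  rw [h1, Finset.prod_filter]
  refine Finset.prod_congr rfl fun i _ => ?_
  by_cases hij : i < j
  · rw [if_pos hij]
    by_cases h2 : σ i < σ j
    · rw [if_pos h2, if_neg (fun h => absurd h.2 (not_lt.2 h2.le)), pow_zero]
    · have h3 : σ j < σ i := lt_of_le_of_ne (not_lt.1 h2) fun h => by
        have := σ.injective h
        omega
      rw [if_neg h2, if_pos ⟨hij, h3⟩, pow_one]
  · rw [if_neg hij, if_neg (fun h => hij h.1), pow_zero]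

/-- the code of an inversion -/
def Inv (f : ℕ → ℕ) (N x : ℕ) : Prop := ∃ i ≤ x, ∃ j ≤ x, i < j ∧ j < N ∧ x = i * N + j ∧ f j < f i

theorem even_inv {f : ℕ → ℕ} {N : ℕ} (h : Good f N) :
    Even (numCycles f N + N + {x : ℕ | x < N * N ∧ Inv f N x}.ncard) := by
  classical
  -- the permutation of `Fin N`
  let g : Fin N → Fin N := fun a => ⟨f a, h.lt a.isLt⟩
  have hg : Injective g := fun a b hab => Fin.ext (h.inj (congrArg Fin.val hab))
  let σ : Equiv.Perm (Fin N) := Equiv.ofBijective g (Finite.injective_iff_bijective.1 hg)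
  have hσ : ∀ a : Fin N, ((σ a : Fin N) : ℕ) = f a := fun a => rfl
  have hext : ext σ = f := by
    funext a
    by_cases ha : a < N
    · rw [ext_lt σ ha]
      rfl
    · rw [ext, dif_neg ha, h.fix a (by omega)]
  have h1 := sign_eq_cycles σ
  rw [sign_eq_inv σ, hext] at h1
  set T := (Finset.univ : Finset (Fin N × Fin N)).filter
      (fun q => q.1 < q.2 ∧ σ q.2 < σ q.1) with hT
  have h2 : {x : ℕ | x < N * N ∧ Inv f N x} =
      ((T.image fun q => (q.1 : ℕ) * N + q.2 : Finset ℕ) : Set ℕ) := by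
    ext x
    rw [Finset.mem_coe, Finset.mem_image]
    constructor
    · rintro ⟨_, i, _, j, _, hij, hj, hx, hf⟩
      refine ⟨(⟨i, by omega⟩, ⟨j, hj⟩), ?_, hx.symm⟩
      rw [hT, Finset.mem_filter]
      exact ⟨Finset.mem_univ _, hij, hf⟩
    · rintro ⟨q, hq, rfl⟩
      rw [hT, Finset.mem_filter] at hq
      have h3 := q.1.isLt
      have h4 := q.2.isLt
      have h5 : (q.1 : ℕ) * N + q.2 < N * N := by
        calc (q.1 : ℕ) * N + q.2 < q.1 * N + N := by omega
          _ = (q.1 + 1) * N := by ring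
          _ ≤ N * N := Nat.mul_le_mul_right _ h3
      have h6 : (q.1 : ℕ) ≤ q.1 * N := Nat.le_mul_of_pos_right _ (by omega)
      exact ⟨h5, q.1, by omega, q.2, by omega, hq.2.1, h4, rfl, hq.2.2⟩
  have h3 : {x : ℕ | x < N * N ∧ Inv f N x}.ncard = T.card := by
    rw [h2, Set.ncard_coe_finset, Finset.card_image_of_injective]
    rintro ⟨a, b⟩ ⟨c, d⟩ hab
    have ha := a.isLt
    have hb := b.isLt
    have hd := d.isLt
    have hab' : (a : ℕ) * N + b = c * N + d := hab
    have e1 : (a : ℕ) = c := by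
      have h5 : ((a : ℕ) * N + b) / N = a := by
        rw [mul_comm, Nat.mul_add_div (by omega), Nat.div_eq_of_lt hb, add_zero]
      have h6 : ((c : ℕ) * N + d) / N = c := by
        rw [mul_comm, Nat.mul_add_div (by omega), Nat.div_eq_of_lt hd, add_zero]
      rw [← h5, hab', h6]
    have e2 : (b : ℕ) = d := by
      rw [e1] at hab'
      omega
    exact Prod.ext (Fin.ext e1) (Fin.ext e2)
  rw [h3]
  have h4 : ((-1 : ℤˣ)) ^ (numCycles f N + N + T.card) = 1 := by
    rw [pow_add, ← h1, ← pow_add, ← two_mul, pow_mul]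
    simp
  by_contra h5
  rw [Nat.not_even_iff_odd] at h5
  rw [h5.neg_one_pow] at h4
  exact absurd h4 (by decide)

end Pool.Agent.J4H68.CC
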