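import Pool.Agent.J4H68.CC.Defs

/-!
# Cycles of permutations of the natural numbers with finite support
-/

set_option autoImplicit false

namespace Pool.Agent.J4H68.CC

open Function

/-- `t` is in the orbit of `s` -/
def Orb (f : ℕ → ℕ) (s t : ℕ) : Prop := ∃ j, f^[j] s = t

/-- `f` is injective and fixes all numbers `≥ N` -/
structure Good (f : ℕ → ℕ) (N : ℕ) : Prop where
  inj : Injective f
  fix : ∀ a, N ≤ a → f a = a

variable {f g : ℕ → ℕ} {N : ℕ}

theorem Good.lt (h : Good f N) {a : ℕ} (ha : a < N) : f a < N := by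
  by_contra hc
  have h1 := h.fix (f a) (by omega)
  have h2 := h.inj h1
  omega

theorem Good.iter_lt (h : Good f N) {x : ℕ} (hx : x < N) : ∀ j, f^[j] x < N := by
  intro j
  induction j with
  | zero => exact hx
  | succ j ih =>
    rw [iterate_succ_apply']
    exact h.lt ih

theorem Good.iter_fix (h : Good f N) {x : ℕ} (hx : N ≤ x) : ∀ j, f^[j] x = x := by
  intro j
  induction j with
  | zero => rfl
  | succ j ih => rw [iterate_succ_apply', ih, h.fix x hx]

theorem Good.period (h : Good f N) (x : ℕ) : ∃ k, 0 < k ∧ k ≤ N + 1 ∧ f^[k] x = x := by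
  rcases lt_or_ge x N with hx | hx
  · have hcard : (Finset.range N).card < (Finset.range (N + 1)).card := by simp
    obtain ⟨i, hi, j, hj, hij, he⟩ := Finset.exists_ne_map_eq_of_card_lt_of_maps_to hcard
      (f := fun j => f^[j] x) (fun j _ => by
        rw [Finset.mem_coe, Finset.mem_range]
        exact h.iter_lt hx j)
    rw [Finset.mem_range] at hi hj
    have main : ∀ i j : ℕ, i < j → j < N + 1 → f^[i] x = f^[j] x →
        ∃ k, 0 < k ∧ k ≤ N + 1 ∧ f^[k] x = x := by
      intro i j hij hj he
      refine ⟨j - i, by omega, by omega, ?_⟩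
      have h1 : f^[i] (f^[j - i] x) = f^[i] x := by
        rw [← iterate_add_apply, show i + (j - i) = j by omega, he]
      exact h.inj.iterate i h1
    rcases lt_or_gt_of_ne hij with h | h
    · exact main i j h hj he
    · exact main j i h hi he.symm
  · exact ⟨1, by omega, by omega, h.iter_fix hx 1⟩

theorem Good.minPer (h : Good f N) (x : ℕ) : 0 < minimalPeriod f x := by
  obtain ⟨k, hk, _, hk'⟩ := h.period x
  exact minimalPeriod_pos_of_mem_periodicPts ⟨k, hk, hk'⟩

theorem Orb.refl (f : ℕ → ℕ) (s : ℕ) : Orb f s s := ⟨0, rfl⟩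

theorem Orb.step (f : ℕ → ℕ) (s : ℕ) : Orb f s (f s) := ⟨1, rfl⟩

theorem Orb.trans {s t u : ℕ} (h1 : Orb f s t) (h2 : Orb f t u) : Orb f s u := by
  obtain ⟨i, rfl⟩ := h1
  obtain ⟨j, rfl⟩ := h2
  exact ⟨j + i, iterate_add_apply f j i s⟩

theorem Good.symm (h : Good f N) {s t : ℕ} (h1 : Orb f s t) : Orb f t s := by
  obtain ⟨j, rfl⟩ := h1
  obtain ⟨k, hk, _, hk'⟩ := h.period s
  refine ⟨k * j - j, ?_⟩
  have hle : j ≤ k * j := Nat.le_mul_of_pos_left j hk
  rw [← iterate_add_apply, show k * j - j + j = j * k by rw [Nat.sub_add_cancel hle, mul_comm]]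
  have : IsPeriodicPt f k s := hk'
  exact this.const_mul j

/-- an equivalence relation which contains all steps contains all orbits -/
theorem Orb.le {E : ℕ → ℕ → Prop} (hr : ∀ s, E s s) (ht : ∀ s t u, E s t → E t u → E s u)
    (hs : ∀ s, E s (f s)) {s t : ℕ} (h : Orb f s t) : E s t := by
  obtain ⟨j, rfl⟩ := h
  induction j with
  | zero => exact hr s
  | succ j ih =>
    rw [iterate_succ_apply']
    exact ht _ _ _ ih (hs _)

/-- `f` after the transposition of `x` and `y` -/
def sw (f : ℕ → ℕ) (x y : ℕ) (a : ℕ) : ℕ := if a = x then f y else if a = y then f x else f a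

theorem sw_left (f : ℕ → ℕ) (x y : ℕ) : sw f x y x = f y := if_pos rfl

theorem sw_right (f : ℕ → ℕ) (x y : ℕ) : sw f x y y = f x := by
  unfold sw
  by_cases h : y = x
  · rw [if_pos h, h]
  · rw [if_neg h, if_pos rfl]

theorem sw_of_ne (f : ℕ → ℕ) {x y a : ℕ} (h1 : a ≠ x) (h2 : a ≠ y) : sw f x y a = f a := by
  unfold sw
  rw [if_neg h1, if_neg h2]

theorem sw_sw (f : ℕ → ℕ) (x y : ℕ) : sw (sw f x y) x y = f := by
  funext a
  by_cases h1 : a = x
  · rw [h1, sw_left, sw_right]
  · by_cases h2 : a = y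
    · rw [h2, sw_right, sw_left]
    · rw [sw_of_ne _ h1 h2, sw_of_ne _ h1 h2]

theorem Good.sw (h : Good f N) {x y : ℕ} (hx : x < N) (hy : y < N) : Good (sw f x y) N := by
  refine ⟨?_, fun a ha => ?_⟩
  · have e : CC.sw f x y = f ∘ (Equiv.swap x y) := by
      funext a
      by_cases h1 : a = x
      · rw [h1, sw_left, comp_apply, Equiv.swap_apply_left]
      · by_cases h2 : a = y
        · rw [h2, sw_right, comp_apply, Equiv.swap_apply_right]
        · rw [sw_of_ne _ h1 h2, comp_apply, Equiv.swap_apply_of_ne_of_ne h1 h2]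
    rw [e]
    exact h.inj.comp (Equiv.injective _)
  · rw [sw_of_ne _ (by omega) (by omega), h.fix a ha]

/-- different cycles are joined -/
theorem sw_join (h : Good f N) {x y : ℕ} (hxy : ¬ Orb f x y) : Orb (sw f x y) x y := by
  have hyx : ¬ Orb f y x := fun h1 => hxy (h.symm h1)
  have hb := h.minPer y
  set b := minimalPeriod f y with hbdef
  have key : ∀ j, j + 1 ≤ b → (sw f x y)^[j + 1] x = f^[j + 1] y := by
    intro j
    induction j with
    | zero =>
      intro _
      change sw f x y x = f y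
      exact sw_left f x y
    | succ j ih =>
      intro hj
      rw [iterate_succ_apply', ih (by omega), iterate_succ_apply' f (j + 1)]
      refine sw_of_ne f (fun h1 => hyx ⟨_, h1⟩) (fun h1 => ?_)
      have h2 : IsPeriodicPt f (j + 1) y := h1
      have h3 := h2.minimalPeriod_le (by omega)
      omega
  refine ⟨b, ?_⟩
  have h1 := key (b - 1) (by omega)
  rw [show b - 1 + 1 = b by omega] at h1
  rw [h1]
  exact isPeriodicPt_minimalPeriod f y

/-- a cycle is split -/
theorem sw_split (h : Good f N) {x y : ℕ} (hne : x ≠ y) (hxy : Orb f x y) :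
    ¬ Orb (sw f x y) x y := by
  have hn := h.minPer x
  set n := minimalPeriod f x with hndef
  have hper : f^[n] x = x := isPeriodicPt_minimalPeriod f x
  obtain ⟨k, hk0, hk⟩ : ∃ k, k < n ∧ f^[k] x = y := by
    obtain ⟨j, hj⟩ := hxy
    refine ⟨j % n, Nat.mod_lt _ hn, ?_⟩
    rw [← hj]
    exact iterate_mod_minimalPeriod_eq
  have hkpos : 0 < k := by
    rcases Nat.eq_zero_or_pos k with rfl | h1
    · exact absurd hk hne
    · exact h1
  have hinj : ∀ i j, i < n → j < n → f^[i] x = f^[j] x → i = j := by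
    intro i j hi hj he
    exact (iterate_eq_iterate_iff_of_lt_minimalPeriod hi hj).1 he
  have key : ∀ j, j + 1 ≤ n - k → (sw f x y)^[j + 1] x = f^[k + (j + 1)] x := by
    intro j
    induction j with
    | zero =>
      intro _
      change sw f x y x = _
      rw [sw_left, ← hk, show k + (0 + 1) = k + 1 by omega, iterate_succ_apply']
    | succ j ih =>
      intro hj
      rw [iterate_succ_apply', ih (by omega), show k + (j + 1 + 1) = k + (j + 1) + 1 by omega,
        iterate_succ_apply' f (k + (j + 1))]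
      refine sw_of_ne f (fun h1 => ?_) (fun h1 => ?_)
      · have := hinj (k + (j + 1)) 0 (by omega) (by omega) h1
        omega
      · have := hinj (k + (j + 1)) k (by omega) (by omega) (h1.trans hk.symm)
        omega
  have hper' : (sw f x y)^[n - k] x = x := by
    have h1 := key (n - k - 1) (by omega)
    rw [show n - k - 1 + 1 = n - k by omega, show k + (n - k) = n by omega] at h1
    rw [h1, hper]
  rintro ⟨j, hj⟩
  have hmod : (sw f x y)^[j % (n - k)] x = y := by
    have h2 : IsPeriodicPt (sw f x y) (n - k) x := hper'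
    rw [h2.iterate_mod_apply, hj]
  have hlt : j % (n - k) < n - k := Nat.mod_lt _ (by omega)
  rcases Nat.eq_zero_or_pos (j % (n - k)) with h0 | h0
  · rw [h0] at hmod
    exact hne hmod
  · have h1 := key (j % (n - k) - 1) (by omega)
    rw [show j % (n - k) - 1 + 1 = j % (n - k) by omega, hmod, ← hk] at h1
    have := hinj k (k + j % (n - k)) (by omega) (by omega) h1
    omega

/-- the orbits of `f` after a transposition which joins two cycles -/
theorem orb_sw_iff (h : Good f N) {x y : ℕ} (hx : x < N) (hy : y < N) (hxy : ¬ Orb f x y)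
    (s t : ℕ) : Orb (sw f x y) s t ↔
      Orb f s t ∨ ((Orb f s x ∨ Orb f s y) ∧ (Orb f t x ∨ Orb f t y)) := by
  have hg := h.sw hx hy
  have hj := sw_join h hxy
  have hle : ∀ s t, Orb f s t → Orb (sw f x y) s t := by
    intro s t hst
    refine Orb.le (Orb.refl _) (fun _ _ _ => Orb.trans) (fun s => ?_) hst
    by_cases h1 : s = x
    · rw [h1, ← sw_right f x y]
      exact hj.trans (Orb.step _ _)
    · by_cases h2 : s = y
      · rw [h2, ← sw_left f x y]
        exact (hg.symm hj).trans (Orb.step _ _)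
      · rw [← sw_of_ne f h1 h2]
        exact Orb.step _ _
  constructor
  · intro hst
    refine Orb.le (f := sw f x y) (E := fun s t => Orb f s t ∨
      ((Orb f s x ∨ Orb f s y) ∧ (Orb f t x ∨ Orb f t y))) (fun s => Or.inl (Orb.refl _ _)) ?_ ?_ hst
    · rintro s t u (h1 | ⟨h1, h2⟩) (h3 | ⟨h3, h4⟩)
      · exact Or.inl (h1.trans h3)
      · exact Or.inr ⟨h3.imp (fun h => h1.trans h) (fun h => h1.trans h), h4⟩
      · exact Or.inr ⟨h1, h2.imp (fun h' => (h.symm h3).trans h') (fun h' => (h.symm h3).trans h')⟩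
      · exact Or.inr ⟨h1, h4⟩
    · intro s
      by_cases h1 : s = x
      · rw [h1, sw_left]
        exact Or.inr ⟨Or.inl (Orb.refl _ _), Or.inr (h.symm (Orb.step _ _))⟩
      · by_cases h2 : s = y
        · rw [h2, sw_right]
          exact Or.inr ⟨Or.inr (Orb.refl _ _), Or.inl (h.symm (Orb.step _ _))⟩
        · rw [sw_of_ne f h1 h2]
          exact Or.inl (Orb.step _ _)
  · rintro (h1 | ⟨h1, h2⟩)
    · exact hle _ _ h1
    · have h3 : Orb (sw f x y) s x := by
        rcases h1 with h1 | h1
        · exact hle _ _ h1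
        · exact (hle _ _ h1).trans (hg.symm hj)
      have h4 : Orb (sw f x y) t x := by
        rcases h2 with h2 | h2
        · exact hle _ _ h2
        · exact (hle _ _ h2).trans (hg.symm hj)
      exact h3.trans (hg.symm h4)

/-- the leaders: least elements of their orbits -/
def Lead (f : ℕ → ℕ) (s : ℕ) : Prop := ∀ t, Orb f s t → s ≤ t

theorem lead_iff (s : ℕ) : Lead f s ↔ ∀ j : ℕ, s ≤ f^[j] s :=
  ⟨fun h j => h _ ⟨j, rfl⟩, by
    rintro h t ⟨j, rfl⟩
    exact h j⟩

theorem numCycles_eq (f : ℕ → ℕ) (N : ℕ) :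
    numCycles f N = {x : ℕ | x < N ∧ Lead f x}.ncard := by
  unfold numCycles
  congr 1
  ext x
  simp only [Set.mem_ofPred_eq, lead_iff]

theorem exists_lead (f : ℕ → ℕ) (s : ℕ) : ∃ u, Lead f u ∧ Orb f s u := by
  classical
  have hex : ∃ u, Orb f s u := ⟨s, Orb.refl _ _⟩
  refine ⟨Nat.find hex, fun t ht => ?_, Nat.find_spec hex⟩
  exact Nat.find_min' hex ((Nat.find_spec hex).trans ht)

theorem lead_unique (h : Good f N) {s t : ℕ} (hs : Lead f s) (ht : Lead f t) (hst : Orb f s t) :
    s = t := le_antisymm (hs t hst) (ht s (h.symm hst))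

theorem orb_lt (h : Good f N) {s t : ℕ} (hs : s < N) (hst : Orb f s t) : t < N := by
  obtain ⟨j, rfl⟩ := hst
  exact h.iter_lt hs j

/-- a transposition which joins two cycles lowers the number of cycles by one -/
theorem numCycles_join (h : Good f N) {x y : ℕ} (hx : x < N) (hy : y < N) (hxy : ¬ Orb f x y) :
    numCycles f N = numCycles (sw f x y) N + 1 := by
  have hyx : ¬ Orb f y x := fun h1 => hxy (h.symm h1)
  obtain ⟨u, hu, hxu⟩ := exists_lead f x
  obtain ⟨w, hw, hyw⟩ := exists_lead f y
  have huN := orb_lt h hx hxu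
  have hwN := orb_lt h hy hyw
  have huw : u ≠ w := by
    rintro rfl
    exact hxy (hxu.trans (h.symm hyw))
  rw [numCycles_eq, numCycles_eq]
  have hfin : {s : ℕ | s < N ∧ Lead (sw f x y) s}.Finite :=
    (Set.finite_lt_nat N).subset fun s hs => hs.1
  have hux := h.symm hxu
  have hwy := h.symm hyw
  have main : {s : ℕ | s < N ∧ Lead f s} =
      insert (max u w) {s : ℕ | s < N ∧ Lead (sw f x y) s} := by
    ext s
    simp only [Set.mem_ofPred_eq, Set.mem_insert_iff]
    constructor
    · rintro ⟨hs, hl⟩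
      by_cases hsm : s = max u w
      · exact Or.inl hsm
      · refine Or.inr ⟨hs, fun t ht => ?_⟩
        rcases (orb_sw_iff h hx hy hxy s t).1 ht with h1 | ⟨h1, h2⟩
        · exact hl t h1
        · have hs' : s = u ∨ s = w := by
            rcases h1 with h1 | h1
            · exact Or.inl (lead_unique h hl hu (h1.trans hxu))
            · exact Or.inr (lead_unique h hl hw (h1.trans hyw))
          have ht' : u ≤ t ∨ w ≤ t := by
            rcases h2 with h2 | h2
            · exact Or.inl (hu t (h.symm (h2.trans hxu)))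
            · exact Or.inr (hw t (h.symm (h2.trans hyw)))
          omega
    · rintro (rfl | ⟨hs, hl⟩)
      · rcases max_choice u w with h1 | h1
        · rw [h1]; exact ⟨huN, hu⟩
        · rw [h1]; exact ⟨hwN, hw⟩
      · exact ⟨hs, fun t ht => hl t ((orb_sw_iff h hx hy hxy s t).2 (Or.inl ht))⟩
  have hnot : max u w ∉ {s : ℕ | s < N ∧ Lead (sw f x y) s} := by
    rintro ⟨_, hl⟩
    have h1 : Orb (sw f x y) u w :=
      (orb_sw_iff h hx hy hxy u w).2 (Or.inr ⟨Or.inl hux, Or.inr hwy⟩)
    have h2 : Orb (sw f x y) w u :=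
      (orb_sw_iff h hx hy hxy w u).2 (Or.inr ⟨Or.inr hwy, Or.inl hux⟩)
    rcases max_choice u w with h3 | h3
    · rw [h3] at hl
      have := hl w h1
      omega
    · rw [h3] at hl
      have := hl u h2
      omega
  rw [main, Set.ncard_insert_of_notMem hnot hfin]

theorem numCycles_split (h : Good f N) {x y : ℕ} (hx : x < N) (hy : y < N) (hne : x ≠ y)
    (hxy : Orb f x y) : numCycles (sw f x y) N = numCycles f N + 1 := by
  have h1 := numCycles_join (h.sw hx hy) hx hy (sw_split h hne hxy)
  rwa [sw_sw] at h1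

/-- further fixed points -/
theorem numCycles_add (h : Good f N) (r : ℕ) : numCycles f (N + r) = numCycles f N + r := by
  induction r with
  | zero => rfl
  | succ r ih =>
    have e : {x : ℕ | x < N + (r + 1) ∧ ∀ j : ℕ, x ≤ f^[j] x} =
        insert (N + r) {x : ℕ | x < N + r ∧ ∀ j : ℕ, x ≤ f^[j] x} := by
      ext x
      simp only [Set.mem_ofPred_eq, Set.mem_insert_iff]
      constructor
      · rintro ⟨h1, h2⟩
        by_cases h3 : x = N + r
        · exact Or.inl h3
        · exact Or.inr ⟨by omega, h2⟩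
      · rintro (rfl | ⟨h1, h2⟩)
        · exact ⟨by omega, fun j => by rw [h.iter_fix (by omega)]⟩
        · exact ⟨by omega, h2⟩
    unfold numCycles at ih ⊢
    rw [e, Set.ncard_insert_of_notMem (by simp) ((Set.finite_lt_nat _).subset fun s hs => hs.1), ih]
    omega

end Pool.Agent.J4H68.CC
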