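import Pool.Agent.J4H68.CC.Parity

/-!
# Cycles modulo 2: the same as parity counting
-/

set_option autoImplicit false

namespace Pool.Agent.J4H68.CC

open Function Pool.Agent.J4H63.GZ

theorem bd_inv {K : ℕ} {π : (Fin (K + 1) → ℕ) → ℕ → ℕ} (hπ : PermFamily K π) {ι : Type}
    {p : Fin (K + 1) → (ι → ℕ) → ℕ} (hp : ∀ i, PF (p i)) {x : (ι → ℕ) → ℕ} (hx : PF x) :
    Bd (fun v => Inv (π (fun i => p i v)) (p 0 v) (x v)) := by
  have h : Bd (fun v => ∃ i ≤ x v, ∃ j ≤ x v, (i < j ∧ j < p 0 v ∧ x v = i * p 0 v + j) ∧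
      ∃ a ≤ p 0 v, ∃ b ≤ p 0 v, (π (fun i => p i v) i = a ∧ π (fun i => p i v) j = b) ∧
        b < a) := by
    refine Bd.ex_le (P := fun v i => ∃ j ≤ x v, (i < j ∧ j < p 0 v ∧ x v = i * p 0 v + j) ∧
      ∃ a ≤ p 0 v, ∃ b ≤ p 0 v, (π (fun i => p i v) i = a ∧ π (fun i => p i v) j = b) ∧
        b < a) hx ?_
    refine Bd.ex_le (b := fun w : Option ι → ℕ => x (fun i => w (some i)))
      (P := fun w j => (w none < j ∧ j < p 0 (fun i => w (some i)) ∧
        x (fun i => w (some i)) = w none * p 0 (fun i => w (some i)) + j) ∧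
      ∃ a ≤ p 0 (fun i => w (some i)), ∃ b ≤ p 0 (fun i => w (some i)),
        (π (fun k => p k (fun i => w (some i))) (w none) = a ∧
          π (fun k => p k (fun i => w (some i))) j = b) ∧ b < a) (PFup hx) ?_
    have hx2 := PFup (PFup hx)
    have hp2 : ∀ i, _ := fun i => PFup (PFup (hp i))
    refine Bd.and (Bd.and (Bd.ltf (PF.proj (some none)) (PF.proj none))
      (Bd.and (Bd.ltf (PF.proj none) (hp2 0))
        (Bd.eqf hx2 (((PF.proj (some none)).mul (hp2 0)).add (PF.proj none))))) ?_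
    refine Bd.ex_le (b := fun w : Option (Option ι) → ℕ => p 0 (fun i => w (some (some i))))
      (P := fun w a => ∃ b ≤ p 0 (fun i => w (some (some i))),
        (π (fun k => p k (fun i => w (some (some i)))) (w (some none)) = a ∧
          π (fun k => p k (fun i => w (some (some i)))) (w none) = b) ∧ b < a) (hp2 0) ?_
    have hp3 : ∀ i, _ := fun i => PFup (hp2 i)
    refine Bd.ex_le (b := fun w : Option (Option (Option ι)) → ℕ =>
        p 0 (fun i => w (some (some (some i)))))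
      (P := fun w b =>
        (π (fun k => p k (fun i => w (some (some (some i))))) (w (some (some none))) = w none ∧
          π (fun k => p k (fun i => w (some (some (some i))))) (w (some none)) = b) ∧
            b < w none) (hp3 0) ?_
    have hp4 : ∀ i, _ := fun i => PFup (hp3 i)
    refine Bd.and (Bd.and ?_ ?_) (Bd.ltf (PF.proj none) (PF.proj (some none)))
    · exact bd_graph hπ.graph hp4 (PF.proj (some (some (some none)))) (PF.proj (some none))
    · exact bd_graph hπ.graph hp4 (PF.proj (some (some none))) (PF.proj none)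
  refine h.congr fun v => ?_
  unfold Inv
  constructor
  · rintro ⟨i, hi, j, hj, h1, h2, h3, h4⟩
    have h5 := hπ.lt (fun i => p i v) (N := p 0 v) le_rfl h2
    have h6 := hπ.lt (fun i => p i v) (N := p 0 v) le_rfl (h1.trans h2)
    exact ⟨i, hi, j, hj, ⟨h1, h2, h3⟩, _, h6.le, _, h5.le, ⟨rfl, rfl⟩, h4⟩
  · rintro ⟨i, hi, j, hj, ⟨h1, h2, h3⟩, a, _, b, _, ⟨rfl, rfl⟩, h4⟩
    exact ⟨i, hi, j, hj, h1, h2, h3, h4⟩

theorem two_of_parity
    (H : ∀ (K : ℕ) (P : (Fin (K + 2) → ℕ) → Prop), Delta0 (K + 2) P →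
      Delta0 (K + 1) (fun p => 2 ∣ {x : ℕ | x < p 0 ∧ P (Matrix.vecCons x p)}.ncard))
    {K : ℕ} {π : (Fin (K + 1) → ℕ) → ℕ → ℕ} (hπ : PermFamily K π) :
    Delta0 (K + 1) (fun p => 2 ∣ numCycles (π p) (p 0)) := by
  have h1 := H (K + 1) (fun u => Inv (π (fun i => u i.succ.succ)) (u 2) (u 0))
    (Bd.delta0_iff.2 (bd_inv hπ (p := fun i (u : Fin (K + 3) → ℕ) => u i.succ.succ)
      (fun i => PF.proj _) (PF.proj 0)))
  rw [Bd.delta0_iff] at h1 ⊢
  have h2 : Bd (fun p : Fin (K + 1) → ℕ =>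
      2 ∣ {x : ℕ | x < p 0 * p 0 ∧ Inv (π p) (p 0) x}.ncard) :=
    (h1.subst (f := fun i (p : Fin (K + 1) → ℕ) =>
      (Matrix.vecCons (p 0 * p 0) (fun i => p i) : Fin (K + 2) → ℕ) i)
      (PF.cons ((PF.proj 0).mul (PF.proj 0)) fun i => PF.proj _)).congr fun v => Iff.rfl
  have h3 : Bd (fun p : Fin (K + 1) → ℕ => ∃ s ≤ p 0, p 0 = 2 * s) :=
    Bd.ex_le (P := fun p s => p 0 = 2 * s) (PF.proj 0)
      (Bd.eqf (PF.proj _) ((PF.const 2).mul (PF.proj none)))
  refine (h3.iff h2).congr fun p => ?_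
  have h4 := even_inv (hπ.good p)
  have h5 : (∃ s ≤ p 0, p 0 = 2 * s) ↔ 2 ∣ p 0 := by
    constructor
    · rintro ⟨s, _, hs⟩
      exact ⟨s, hs⟩
    · rintro ⟨s, hs⟩
      exact ⟨s, by omega, hs⟩
  rw [h5]
  obtain ⟨r, hr⟩ := h4
  omega

open Classical in
/-- the involution which interchanges `2 j` and `2 j + 1` if `P j` -/
noncomputable def flip (P : ℕ → Prop) (N a : ℕ) : ℕ := if a < 2 * N ∧ P (a / 2) then eps a else a

theorem flip_flip (P : ℕ → Prop) (N a : ℕ) : flip P N (flip P N a) = a := by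
  unfold flip
  by_cases h : a < 2 * N ∧ P (a / 2)
  · rw [if_pos h, if_pos, eps_eps]
    rw [eps_div]
    refine ⟨?_, h.2⟩
    have := h.1
    unfold eps
    omega
  · rw [if_neg h, if_neg h]

theorem flip_good (P : ℕ → Prop) (N : ℕ) : Good (flip P N) (2 * N) := by
  have hinv : Involutive (flip P N) := flip_flip P N
  refine ⟨hinv.injective, fun a ha => ?_⟩
  unfold flip
  rw [if_neg]
  omega

theorem flip_iter (P : ℕ → Prop) (N a j : ℕ) :
    (flip P N)^[j] a = a ∨ (flip P N)^[j] a = flip P N a := by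
  induction j with
  | zero => exact Or.inl rfl
  | succ j ih =>
    rw [iterate_succ_apply']
    rcases ih with h | h
    · rw [h]
      exact Or.inr rfl
    · rw [h, flip_flip]
      exact Or.inl rfl

theorem flip_lead (P : ℕ → Prop) (N a : ℕ) :
    (∀ j, a ≤ (flip P N)^[j] a) ↔ a ≤ flip P N a := by
  constructor
  · intro h
    exact h 1
  · intro h j
    rcases flip_iter P N a j with h1 | h1
    · rw [h1]
    · rw [h1]
      exact h

theorem numCycles_flip (P : ℕ → Prop) (N : ℕ) :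
    numCycles (flip P N) (2 * N) + {x : ℕ | x < N ∧ P x}.ncard = 2 * N := by
  unfold numCycles
  have hfin : {x : ℕ | x < N ∧ P x}.Finite := (Set.finite_lt_nat N).subset fun x hx => hx.1
  have hinj : Injective (fun x : ℕ => 2 * x + 1) := fun a b h => by
    have : 2 * a + 1 = 2 * b + 1 := h
    omega
  have hfin2 : {x : ℕ | x < 2 * N ∧ ∀ j : ℕ, x ≤ (flip P N)^[j] x}.Finite :=
    (Set.finite_lt_nat (2 * N)).subset fun x hx => hx.1
  rw [← Set.ncard_image_of_injective {x : ℕ | x < N ∧ P x} hinj,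
    ← Set.ncard_union_eq ?_ hfin2 (hfin.image _)]
  · have e : {x : ℕ | x < 2 * N ∧ ∀ j : ℕ, x ≤ (flip P N)^[j] x} ∪
        (fun x : ℕ => 2 * x + 1) '' {x : ℕ | x < N ∧ P x} = ((Finset.range (2 * N) : Finset ℕ) :
          Set ℕ) := by
      ext x
      simp only [Set.mem_union, Set.mem_ofPred_eq, Set.mem_image, Finset.coe_range, Set.mem_Iio,
        flip_lead]
      constructor
      · rintro (h | ⟨y, hy, rfl⟩)
        · exact h.1
        · have := hy.1
          omega
      · intro hx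
        by_cases h1 : x % 2 = 0
        · left
          refine ⟨hx, ?_⟩
          unfold flip eps
          split_ifs <;> omega
        · by_cases h2 : P (x / 2)
          · right
            exact ⟨x / 2, ⟨by omega, h2⟩, by omega⟩
          · left
            refine ⟨hx, ?_⟩
            unfold flip
            rw [if_neg fun h => h2 h.2]
    rw [e, Set.ncard_coe_finset, Finset.card_range]
  · rw [Set.disjoint_left]
    rintro x ⟨hx, hl⟩ ⟨y, ⟨hy, hP⟩, rfl⟩
    rw [flip_lead] at hl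
    have h1 : (2 * y + 1) / 2 = y := by omega
    have h2 : flip P N (2 * y + 1) = 2 * y := by
      unfold flip
      rw [if_pos ⟨hx, by rw [h1]; exact hP⟩]
      unfold eps
      omega
    have hl' : 2 * y + 1 ≤ flip P N (2 * y + 1) := hl
    omega

open Classical in
/-- the family of involutions for a predicate; the vector is `B, p` -/
noncomputable def flipF {K : ℕ} (P : (Fin (K + 2) → ℕ) → Prop) (q : Fin (K + 2) → ℕ) (a : ℕ) : ℕ :=
  if q 0 = 2 * q 1 then flip (fun x => P (Matrix.vecCons x (fun i => q i.succ))) (q 1) a else a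

open Classical in
theorem flipF_family {K : ℕ} {P : (Fin (K + 2) → ℕ) → Prop} (hP : Delta0 (K + 2) P) :
    PermFamily (K + 1) (flipF P) := by
  have hg : ∀ q : Fin (K + 2) → ℕ, Good (flipF P q) (q 0) := by
    intro q
    by_cases h : q 0 = 2 * q 1
    · have e : flipF P q = flip (fun x => P (Matrix.vecCons x (fun i => q i.succ))) (q 1) := by
        funext a
        unfold flipF
        rw [if_pos h]
      rw [e, h]
      exact flip_good _ _
    · have e : flipF P q = fun a => a := by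
        funext a
        unfold flipF
        rw [if_neg h]
      rw [e]
      exact ⟨fun a b h => h, fun a _ => rfl⟩
  refine ⟨fun q => (hg q).bij, fun q x hx => (hg q).fix x hx, ?_⟩
  rw [Bd.delta0_iff]
  have h1 : Bd (fun v : Fin (K + 4) → ℕ => v 2 = 2 * v 3) :=
    Bd.eqf (PF.proj 2) ((PF.const 2).mul (PF.proj 3))
  have h2 : Bd (fun v : Fin (K + 4) → ℕ => v 0 < 2 * v 3) :=
    Bd.ltf (PF.proj 0) ((PF.const 2).mul (PF.proj 3))
  have h3 : Bd (fun v : Fin (K + 4) → ℕ => ∃ y ≤ v 0, (v 0 = 2 * y ∨ v 0 = 2 * y + 1) ∧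
      P (Matrix.vecCons y (fun i => v i.succ.succ.succ))) := by
    refine Bd.ex_le (P := fun v y => (v 0 = 2 * y ∨ v 0 = 2 * y + 1) ∧
      P (Matrix.vecCons y (fun i => v i.succ.succ.succ))) (PF.proj 0) ?_
    have hk : PF (fun w : Option (Fin (K + 4)) → ℕ => 2 * w none) := (PF.const 2).mul (PF.proj none)
    refine Bd.and (Bd.or (Bd.eqf (PF.proj _) hk) (Bd.eqf (PF.proj _) (hk.add (PF.const 1)))) ?_
    exact ((Bd.of_delta0 hP).subst (f := fun i (w : Option (Fin (K + 4)) → ℕ) =>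
      (Matrix.vecCons (w none) (fun i => w (some i.succ.succ.succ)) : Fin (K + 2) → ℕ) i)
      (PF.cons (PF.proj _) fun i => PF.proj _)).congr fun v => Iff.rfl
  have h4 : Bd (fun v : Fin (K + 4) → ℕ => eps (v 0) = v 1) := bd_eps (PF.proj 0) (PF.proj 1)
  have h5 : Bd (fun v : Fin (K + 4) → ℕ => v 0 = v 1) := Bd.eqf (PF.proj 0) (PF.proj 1)
  refine (Bd.or (Bd.and (Bd.and h1 (Bd.and h2 h3)) h4)
    (Bd.and (Bd.not (Bd.and h1 (Bd.and h2 h3))) h5)).congr fun v => ?_
  have e3 : (∃ y ≤ v 0, (v 0 = 2 * y ∨ v 0 = 2 * y + 1) ∧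
      P (Matrix.vecCons y (fun i => v i.succ.succ.succ))) ↔
      P (Matrix.vecCons (v 0 / 2) (fun i => v i.succ.succ.succ)) := by
    constructor
    · rintro ⟨y, _, hy, h⟩
      have : v 0 / 2 = y := by omega
      rw [this]
      exact h
    · intro h
      exact ⟨v 0 / 2, by omega, by omega, h⟩
  rw [e3]
  have key : flipF P (fun i => v i.succ.succ) (v 0) =
      if v 2 = 2 * v 3 then
        (if v 0 < 2 * v 3 ∧ P (Matrix.vecCons (v 0 / 2) (fun i => v i.succ.succ.succ)) then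
          eps (v 0) else v 0)
      else v 0 := rfl
  rw [key]
  split_ifs with a1 a2 <;> tauto

theorem parity_of_two
    (H : ∀ (K : ℕ) (π : (Fin (K + 1) → ℕ) → ℕ → ℕ), PermFamily K π →
      Delta0 (K + 1) (fun p => 2 ∣ numCycles (π p) (p 0)))
    {K : ℕ} {P : (Fin (K + 2) → ℕ) → Prop} (hP : Delta0 (K + 2) P) :
    Delta0 (K + 1) (fun p => 2 ∣ {x : ℕ | x < p 0 ∧ P (Matrix.vecCons x p)}.ncard) := by
  have h1 := H (K + 1) (flipF P) (flipF_family hP)
  rw [Bd.delta0_iff] at h1 ⊢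
  refine (h1.subst (f := fun i (p : Fin (K + 1) → ℕ) =>
      (Matrix.vecCons (2 * p 0) (fun i => p i) : Fin (K + 2) → ℕ) i)
      (PF.cons ((PF.const 2).mul (PF.proj 0)) fun i => PF.proj _)).congr fun p => ?_
  have h2 := numCycles_flip (fun x => P (Matrix.vecCons x p)) (p 0)
  have h3 : flipF P (Matrix.vecCons (2 * p 0) (fun i => p i)) =
      flip (fun x => P (Matrix.vecCons x p)) (p 0) := by
    funext a
    unfold flipF
    rw [if_pos (by rfl)]
    rfl
  change 2 ∣ {x : ℕ | x < p 0 ∧ P (Matrix.vecCons x p)}.ncard ↔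
    2 ∣ numCycles (flipF P (Matrix.vecCons (2 * p 0) (fun i => p i))) (2 * p 0)
  rw [h3]
  omega

end Pool.Agent.J4H68.CC
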